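import Pool.Agent.Helper58.IQ.Defs

/-!
# Elliptic curves over a number field, their 3-torsion and isogenies
-/

open scoped NumberField
open WeierstrassCurve

namespace Pool.Agent.Helper58.IQ

noncomputable instance instDecEqKb (K : Type*) [Field K] : DecidableEq (AlgebraicClosure K) :=
  Classical.decEq _

variable {K : Type*} [Field K]

/-- The group `W(Kb)` of points over an algebraic closure. -/
abbrev Pts (W : WeierstrassCurve K) := (Affine.baseChange W (Kb K)).Point

/-- The Galois action on `W(Kb)`. -/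
noncomputable def ptsRep (W : WeierstrassCurve K) : GK K →* AddMonoid.End (Pts W) where
  toFun g := Affine.Point.map (W' := W) (g : Kb K →ₐ[K] Kb K)
  map_one' := AddMonoidHom.ext fun P => by cases P <;> rfl
  map_mul' g h := AddMonoidHom.ext fun P => by cases P <;> rfl

/-- The 3-torsion subgroup `W[3]` of `W(Kb)`. -/
noncomputable def tor3 (W : WeierstrassCurve K) : AddSubgroup (Pts W) :=
  (nsmulAddMonoidHom 3).ker

theorem mem_tor3 {W : WeierstrassCurve K} {P : Pts W} : P ∈ tor3 W ↔ 3 • P = 0 := Iff.rfl

/-- A subgroup of `W(Kb)` is Galois stable. -/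
def Stab (W : WeierstrassCurve K) (T : AddSubgroup (Pts W)) : Prop :=
  ∀ g : GK K, ∀ P ∈ T, ptsRep W g P ∈ T

theorem stab_tor3 (W : WeierstrassCurve K) : Stab W (tor3 W) := fun g P hP => by
  rw [mem_tor3] at hP ⊢
  rw [← map_nsmul, hP, map_zero]

/-- The Galois module `W[3]`. -/
noncomputable def torRep (W : WeierstrassCurve K) : GK K →* AddMonoid.End (tor3 W) :=
  subRep (ptsRep W) (tor3 W) (stab_tor3 W)

/-- `φ` is an isogeny defined over `K`: a surjective homomorphism `W(Kb) → W'(Kb)` with finite
kernel that commutes with the Galois action and is given, outside a finite set, by rational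
functions of the coordinates with coefficients in `K`. -/
structure IsIsogeny (W W' : WeierstrassCurve K) (φ : Pts W →+ Pts W') : Prop where
  surj : Function.Surjective φ
  fin : Finite φ.ker
  equivariant : ∀ (g : GK K) (P : Pts W), φ (ptsRep W g P) = ptsRep W' g (φ P)
  rational : ∃ (A B C D : MvPolynomial (Fin 2) K) (s : Set (Pts W)), s.Finite ∧
    ∀ (x y : Kb K) (h : (Affine.baseChange W (Kb K)).Nonsingular x y), Affine.Point.some x y h ∉ s →
      MvPolynomial.aeval ![x, y] B ≠ 0 ∧ MvPolynomial.aeval ![x, y] D ≠ 0 ∧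
      ∃ h', φ (Affine.Point.some x y h) = Affine.Point.some
        (MvPolynomial.aeval ![x, y] A / MvPolynomial.aeval ![x, y] B)
        (MvPolynomial.aeval ![x, y] C / MvPolynomial.aeval ![x, y] D) h'

/-- `W` and `W'` are isogenous over `K`. -/
def Isogenous (W W' : WeierstrassCurve K) : Prop := ∃ φ : Pts W →+ Pts W', IsIsogeny W W' φ

/-- The curve `y² = x³ + d (a x + b)²`. -/
def E {F : Type*} [Field F] (d a b : F) : WeierstrassCurve F where
  a₁ := 0
  a₂ := d * a ^ 2
  a₃ := 0
  a₄ := 2 * d * a * b
  a₆ := d * b ^ 2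

/-- The curve `E d a b` is nonsingular. -/
def Good {F : Type*} [Field F] (d a b : F) : Prop := d ≠ 0 ∧ b ≠ 0 ∧ 4 * a ^ 3 * d ≠ 27 * b

end Pool.Agent.Helper58.IQ
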