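import Mathlib

/-!
# The 3-torsion of the curve y² = x³ + d (a x + b)²
-/

open WeierstrassCurve

namespace Pool.Agent.Helper58.IQ

section Gen

variable {F : Type*} [Field F] [DecidableEq F]

/-- The point `(x, y)` of `W` (`0` if it is not a nonsingular point). -/
noncomputable def pt (W : Affine F) (x y : F) : W.Point :=
  open scoped Classical in
  if h : W.Nonsingular x y then Affine.Point.some x y h else 0

omit [DecidableEq F] in
theorem pt_of {W : Affine F} {x y : F} (h : W.Nonsingular x y) :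
    pt W x y = Affine.Point.some x y h := by
  unfold pt
  rw [dif_pos h]

/-- The value at `x` of the right hand side of the equation, if `a₁ = a₃ = 0`. -/
def ff (W : Affine F) (x : F) : F := x ^ 3 + W.a₂ * x ^ 2 + W.a₄ * x + W.a₆

/-- The third division polynomial, if `a₁ = a₃ = 0`. -/
def psi (W : Affine F) (x : F) : F :=
  3 * x ^ 4 + 4 * W.a₂ * x ^ 3 + 6 * W.a₄ * x ^ 2 + 12 * W.a₆ * x +
    (4 * W.a₂ * W.a₆ - W.a₄ ^ 2)

omit [DecidableEq F] in
theorem eqn_iff {W : Affine F} (h1 : W.a₁ = 0) (h3 : W.a₃ = 0) {x y : F} :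
    W.Equation x y ↔ y ^ 2 = ff W x := by
  rw [Affine.equation_iff, h1, h3, ff]
  constructor
  · intro h
    linear_combination h
  · intro h
    linear_combination h

omit [DecidableEq F] in
theorem nonsing_of {W : Affine F} (h2 : (2 : F) ≠ 0) (h1 : W.a₁ = 0) (h3 : W.a₃ = 0) {x y : F}
    (hy : y ≠ 0) (h : y ^ 2 = ff W x) : W.Nonsingular x y := by
  rw [Affine.nonsingular_iff]
  refine ⟨(eqn_iff h1 h3).2 h, Or.inr ?_⟩
  rw [h1, h3]
  intro h'
  apply hy
  have : (2 : F) * y = 0 := by linear_combination h'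
  exact (mul_eq_zero.1 this).resolve_left h2

omit [DecidableEq F] in
theorem neg_pt {W : Affine F} (h1 : W.a₁ = 0) (h3 : W.a₃ = 0) {x y : F}
    (h : W.Nonsingular x y) :
    ∃ h', -(Affine.Point.some x y h) = Affine.Point.some x (-y) h' := by
  have hn : W.negY x y = -y := by simp [Affine.negY, h1, h3]
  have h' : W.Nonsingular x (-y) := by
    rw [← hn]
    exact (Affine.nonsingular_neg ..).2 h
  refine ⟨h', ?_⟩
  rw [Affine.Point.neg_some]
  simp only [Affine.Point.some.injEq, true_and]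
  exact hn

theorem three_smul_iff {W : Affine F} (h2 : (2 : F) ≠ 0) (h1 : W.a₁ = 0) (h3 : W.a₃ = 0)
    {x y : F} (h : W.Nonsingular x y) :
    3 • (Affine.Point.some x y h) = 0 ↔ psi W x = 0 := by
  have hE : y ^ 2 = ff W x := (eqn_iff h1 h3).1 h.1
  obtain ⟨h', hneg⟩ := neg_pt h1 h3 h
  have hn : W.negY x y = -y := by simp [Affine.negY, h1, h3]
  have e3 : 3 • (Affine.Point.some x y h) = 0 ↔
      Affine.Point.some x y h + Affine.Point.some x y h = Affine.Point.some x (-y) h' := by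
    rw [← hneg, eq_neg_iff_add_eq_zero]
    rw [show (3 : ℕ) • (Affine.Point.some x y h) =
      Affine.Point.some x y h + Affine.Point.some x y h + Affine.Point.some x y h by
        rw [succ_nsmul, two_nsmul]]
  rw [e3]
  by_cases hy : y = 0
  · have : Affine.Point.some x y h + Affine.Point.some x y h = 0 := by
      apply Affine.Point.add_self_of_Y_eq
      rw [hn, hy, neg_zero]
    rw [this]
    constructor
    · intro h0
      exact absurd h0.symm (Affine.Point.some_ne_zero _)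
    · intro hpsi
      exfalso
      have hns := h.2
      rw [Affine.nonsingular_iff] at h
      have hd := h.2
      rw [h1, h3, hy] at hd
      have hf : ff W x = 0 := by rw [← hE, hy]; ring
      have hder : 3 * x ^ 2 + 2 * W.a₂ * x + W.a₄ = 0 := by
        have : (3 * x ^ 2 + 2 * W.a₂ * x + W.a₄) ^ 2 = 0 := by
          have e : psi W x = 4 * ff W x * (3 * x + W.a₂) -
            (3 * x ^ 2 + 2 * W.a₂ * x + W.a₄) ^ 2 := by
            simp only [psi, ff]
            ring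
          rw [hpsi, hf] at e
          linear_combination e
        exact pow_eq_zero_iff (two_ne_zero) |>.1 this
      rcases hd with hd | hd
      · apply hd
        linear_combination -hder
      · apply hd
        ring
  · have hy2 : y ≠ W.negY x y := by
      rw [hn]
      intro h0
      apply hy
      have : (2 : F) * y = 0 := by linear_combination h0
      exact (mul_eq_zero.1 this).resolve_left h2
    rw [Affine.Point.add_self_of_Y_ne hy2]
    simp only [Affine.Point.some.injEq]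
    have hsl : W.slope x x y y = (3 * x ^ 2 + 2 * W.a₂ * x + W.a₄) / (2 * y) := by
      rw [Affine.slope_of_Y_ne rfl hy2, hn, h1]
      congr 1 <;> ring
    have h2y : (2 : F) * y ≠ 0 := mul_ne_zero h2 hy
    have hl : W.slope x x y y ^ 2 * (4 * y ^ 2) = (3 * x ^ 2 + 2 * W.a₂ * x + W.a₄) ^ 2 := by
      rw [hsl]
      field_simp
      ring
    have hX : W.addX x x (W.slope x x y y) = W.slope x x y y ^ 2 - W.a₂ - 2 * x := by
      simp only [Affine.addX, h1]
      ring
    have h4 : (4 : F) * y ^ 2 ≠ 0 := by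
      have : (4 : F) = 2 ^ 2 := by norm_num
      rw [this, ← mul_pow]
      exact pow_ne_zero 2 h2y
    have key : (W.addX x x (W.slope x x y y) = x) ↔ psi W x = 0 := by
      rw [hX]
      have e : psi W x = 4 * ff W x * (3 * x + W.a₂) -
            (3 * x ^ 2 + 2 * W.a₂ * x + W.a₄) ^ 2 := by
            simp only [psi, ff]
            ring
      rw [e, ← hE, ← hl]
      constructor
      · intro h0
        linear_combination (-4 * y ^ 2) * h0
      · intro h0
        have : (4 * y ^ 2) * (W.slope x x y y ^ 2 - W.a₂ - 2 * x - x) = 0 := by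
          linear_combination -h0
        have := (mul_eq_zero.1 this).resolve_left h4
        linear_combination this
    constructor
    · rintro ⟨hx, -⟩
      exact key.1 hx
    · intro h0
      have hx := key.2 h0
      refine ⟨hx, ?_⟩
      simp only [Affine.addY, Affine.negAddY, Affine.negY, h1, h3, hx]
      ring

end Gen

section Special

variable {F : Type*} [Field F] [CharZero F]

/-- The coefficients of `W` are those of `y² = x³ + d (a x + b)²`. -/
structure IsE (W : Affine F) (d a b : F) : Prop where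
  h1 : W.a₁ = 0
  h2 : W.a₂ = d * a ^ 2
  h3 : W.a₃ = 0
  h4 : W.a₄ = 2 * d * a * b
  h6 : W.a₆ = d * b ^ 2

/-- `r`, `ζ`, `θ` are a square root of `d`, a primitive cube root of unity and a cube root of
`a³ - 27 b / (4 d)`. -/
structure Rts (d a b r ζ θ : F) : Prop where
  hd : d ≠ 0
  hb : b ≠ 0
  hr : r ^ 2 = d
  hz : ζ ^ 2 + ζ + 1 = 0
  ht : 27 * b = 4 * d * (a ^ 3 - θ ^ 3)
  ht0 : θ ≠ 0

/-- The `x`-coordinate of the third torsion point belonging to `θ`. -/
def xx (d a θ : F) : F := -(4 / 9) * d * (a ^ 2 + a * θ + θ ^ 2)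

/-- The `y`-coordinate. -/
def yy (d a r ζ θ : F) : F := (2 * ζ + 1) * r * θ * xx d a θ / 3

theorem Rts.next {d a b r ζ θ : F} (h : Rts d a b r ζ θ) : Rts d a b r ζ (ζ * θ) where
  hd := h.hd
  hb := h.hb
  hr := h.hr
  hz := h.hz
  ht := by
    have hz := h.hz
    have h3 : ζ ^ 3 = 1 := by linear_combination (ζ - 1) * hz
    rw [mul_pow, h3, one_mul]
    exact h.ht
  ht0 := mul_ne_zero (by
    rintro rfl
    have := h.hz
    norm_num at this) h.ht0

theorem xx_mul {d a b r ζ θ : F} (h : Rts d a b r ζ θ) : xx d a θ * (θ - a) = 3 * b := by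
  have ht := h.ht
  rw [xx]
  linear_combination (-1 / 9 : F) * ht

theorem xx_ne {d a b r ζ θ : F} (h : Rts d a b r ζ θ) : xx d a θ ≠ 0 := by
  intro h0
  have := xx_mul h
  rw [h0, zero_mul] at this
  exact h.hb ((mul_eq_zero.1 this.symm).resolve_left (by norm_num))

theorem r_ne {d a b r ζ θ : F} (h : Rts d a b r ζ θ) : r ≠ 0 := by
  rintro rfl
  exact h.hd (by rw [← h.hr]; ring)

theorem q_sq {d a b r ζ θ : F} (h : Rts d a b r ζ θ) : (2 * ζ + 1) ^ 2 = -3 := by
  have hz := h.hz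
  linear_combination 4 * hz

theorem q_ne {d a b r ζ θ : F} (h : Rts d a b r ζ θ) : 2 * ζ + 1 ≠ 0 := by
  intro h0
  have := q_sq h
  rw [h0] at this
  norm_num at this

theorem yy_ne {d a b r ζ θ : F} (h : Rts d a b r ζ θ) : yy d a r ζ θ ≠ 0 := by
  rw [yy]
  exact div_ne_zero (mul_ne_zero (mul_ne_zero (mul_ne_zero (q_ne h) (r_ne h)) h.ht0) (xx_ne h))
    (by norm_num)

theorem nsT {W : Affine F} {d a b r ζ θ : F} (hW : IsE W d a b) (h : Rts d a b r ζ θ) :
    W.Nonsingular 0 (b * r) := by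
  apply nonsing_of two_ne_zero hW.h1 hW.h3 (mul_ne_zero h.hb (r_ne h))
  rw [ff, hW.h6]
  rw [mul_pow, h.hr]
  ring

theorem nsW {W : Affine F} {d a b r ζ θ : F} (hW : IsE W d a b) (h : Rts d a b r ζ θ) :
    W.Nonsingular (xx d a θ) (yy d a r ζ θ) := by
  apply nonsing_of two_ne_zero hW.h1 hW.h3 (yy_ne h)
  have hq := q_sq h
  have hr := h.hr
  have hb : b = 4 * d * (a ^ 3 - θ ^ 3) / 27 := by
    have := h.ht
    field_simp
    linear_combination this
  have e : yy d a r ζ θ ^ 2 = -(d / 3) * θ ^ 2 * xx d a θ ^ 2 := by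
    rw [yy]
    have : ((2 * ζ + 1) * r * θ * xx d a θ / 3) ^ 2 =
      (2 * ζ + 1) ^ 2 * r ^ 2 * θ ^ 2 * xx d a θ ^ 2 / 9 := by ring
    rw [this, hq, hr]
    ring
  rw [e, ff, hW.h2, hW.h4, hW.h6, hb, xx]
  ring

theorem psi_E {W : Affine F} {d a b r ζ θ : F} (hW : IsE W d a b) (h : Rts d a b r ζ θ) (x : F) :
    psi W x = 3 * x * ((x - xx d a θ) * (x - xx d a (ζ * θ)) * (x - xx d a (ζ * (ζ * θ)))) := by
  have hb : b = 4 * d * (a ^ 3 - θ ^ 3) / 27 := by
    have := h.ht
    field_simp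
    linear_combination this
  have hz := h.hz
  have h2 : ζ ^ 2 = -ζ - 1 := by linear_combination hz
  have h3 : ζ ^ 3 = 1 := by linear_combination (ζ - 1) * hz
  have h4 : ζ ^ 4 = ζ := by linear_combination (ζ ^ 2 - ζ) * hz
  have e1 : xx d a (ζ * θ) = -(4 / 9) * d * (a ^ 2 + a * (ζ * θ) + (-ζ - 1) * θ ^ 2) := by
    rw [xx, mul_pow, h2]
  have e2 : xx d a (ζ * (ζ * θ)) = -(4 / 9) * d * (a ^ 2 + a * ((-ζ - 1) * θ) + ζ * θ ^ 2) := by
    rw [xx]
    have : (ζ * (ζ * θ)) ^ 2 = ζ ^ 4 * θ ^ 2 := by ring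
    rw [this, h4]
    have : ζ * (ζ * θ) = ζ ^ 2 * θ := by ring
    rw [this, h2]
  rw [psi, hW.h2, hW.h4, hW.h6, e1, e2, xx, hb]
  ring_nf
  simp only [h2, h3]
  ring_nf

theorem tors_t {W : Affine F} [DecidableEq F] {d a b r ζ θ : F} (hW : IsE W d a b)
    (h : Rts d a b r ζ θ) : 3 • (pt W 0 (b * r)) = 0 := by
  rw [pt_of (nsT hW h), three_smul_iff two_ne_zero hW.h1 hW.h3, psi_E hW h]
  ring

theorem tors_w {W : Affine F} [DecidableEq F] {d a b r ζ θ : F} (hW : IsE W d a b)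
    (h : Rts d a b r ζ θ) : 3 • (pt W (xx d a θ) (yy d a r ζ θ)) = 0 := by
  rw [pt_of (nsW hW h), three_smul_iff two_ne_zero hW.h1 hW.h3, psi_E hW h]
  ring

/-- `w(ζ θ) = w(θ) - t`. -/
theorem w_next {W : Affine F} [DecidableEq F] {d a b r ζ θ : F} (hW : IsE W d a b)
    (h : Rts d a b r ζ θ) :
    pt W (xx d a (ζ * θ)) (yy d a r ζ (ζ * θ)) =
      pt W (xx d a θ) (yy d a r ζ θ) - pt W 0 (b * r) := by
  rw [pt_of (nsW hW h.next), pt_of (nsW hW h), pt_of (nsT hW h), sub_eq_add_neg]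
  obtain ⟨h', hneg⟩ := neg_pt hW.h1 hW.h3 (nsT hW h)
  rw [hneg]
  have hx := xx_ne h
  have hx' := xx_ne h.next
  rw [Affine.Point.add_of_X_ne hx]
  have hz := h.hz
  have hr := h.hr
  have hxm := xx_mul h
  have hb : b = xx d a θ * (θ - a) / 3 := by
    rw [hxm]
    ring
  have hsl : W.slope (xx d a θ) 0 (yy d a r ζ θ) (-(b * r)) =
      r * ((2 * ζ + 2) * θ - a) / 3 := by
    rw [Affine.slope_of_X_ne hx, yy, hb]
    field_simp
    ring
  have h2 : ζ ^ 2 = -ζ - 1 := by linear_combination hz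
  have hX : W.addX (xx d a θ) 0 (W.slope (xx d a θ) 0 (yy d a r ζ θ) (-(b * r))) =
      xx d a (ζ * θ) := by
    rw [hsl, Affine.addX, hW.h1, hW.h2, xx, xx]
    have : (r * ((2 * ζ + 2) * θ - a) / 3) ^ 2 = d * ((2 * ζ + 2) * θ - a) ^ 2 / 9 := by
      rw [← hr]
      ring
    rw [this]
    linear_combination (8 / 9 * d * θ ^ 2 : F) * hz
  rw [Affine.Point.some.injEq]
  refine ⟨hX.symm, ?_⟩
  rw [Affine.addY, Affine.negAddY, Affine.negY, hX, hW.h1, hW.h3, hsl, yy, yy]
  have e1 : xx d a (ζ * θ) = -(4 / 9) * d * (a ^ 2 + a * (ζ * θ) + (-ζ - 1) * θ ^ 2) := by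
    rw [xx, mul_pow, h2]
  rw [e1, xx]
  ring_nf
  have h3 : ζ ^ 3 = 1 := by linear_combination (ζ - 1) * hz
  simp only [h2, h3]
  ring_nf

end Special

theorem zs3 {A : Type*} [AddCommGroup A] {t : A} (ht : 3 • t = 0) (m : ℤ) :
    ((3 : ℤ) ∣ m ∧ m • t = 0) ∨ (¬ (3 : ℤ) ∣ m ∧ m • t = t) ∨ (¬ (3 : ℤ) ∣ m ∧ m • t = -t) := by
  have ht' : (3 : ℤ) • t = 0 := by
    rw [← ht]
    norm_cast
  have hm : m = 3 * (m / 3) + m % 3 := by omega
  have h3 : (3 * (m / 3)) • t = 0 := by
    rw [mul_comm, mul_zsmul, ht', smul_zero]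
  have hmod : m • t = (m % 3) • t := by
    conv_lhs => rw [hm]
    rw [add_zsmul, h3, zero_add]
  have hcase : m % 3 = 0 ∨ m % 3 = 1 ∨ m % 3 = 2 := by omega
  rcases hcase with h | h | h
  · left
    refine ⟨by omega, ?_⟩
    rw [hmod, h, zero_zsmul]
  · right; left
    refine ⟨by omega, ?_⟩
    rw [hmod, h, one_zsmul]
  · right; right
    refine ⟨by omega, ?_⟩
    rw [hmod, h]
    have : (2 : ℤ) • t + t = 0 := by
      have e : (3 : ℤ) • t = (2 : ℤ) • t + t := by
        rw [show (3 : ℤ) = 2 + 1 by norm_num, add_zsmul, one_zsmul]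
      rw [← e, ht']
    exact eq_neg_of_add_eq_zero_left this

section Str

variable {F : Type*} [Field F] [CharZero F] [DecidableEq F]

theorem t_ne {W : Affine F} {d a b r ζ θ : F} (hW : IsE W d a b) (h : Rts d a b r ζ θ) :
    pt W 0 (b * r) ≠ 0 := by
  rw [pt_of (nsT hW h)]
  exact Affine.Point.some_ne_zero _

theorem span3 {W : Affine F} {d a b r ζ θ : F} (hW : IsE W d a b) (h : Rts d a b r ζ θ)
    (P : W.Point) (hP : 3 • P = 0) :
    ∃ m n : ℤ, P = m • pt W 0 (b * r) + n • pt W (xx d a θ) (yy d a r ζ θ) := by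
  rcases P with _ | ⟨x, y, hxy⟩
  · exact ⟨0, 0, by simp only [zero_zsmul, add_zero]; rfl⟩
  · rw [three_smul_iff two_ne_zero hW.h1 hW.h3, psi_E hW h] at hP
    have hx : x = 0 ∨ x = xx d a θ ∨ x = xx d a (ζ * θ) ∨ x = xx d a (ζ * (ζ * θ)) := by
      rcases mul_eq_zero.1 hP with h1 | h1
      · left
        exact (mul_eq_zero.1 h1).resolve_left (by norm_num)
      · rcases mul_eq_zero.1 h1 with h2 | h2
        · rcases mul_eq_zero.1 h2 with h3 | h3
          · exact Or.inr (Or.inl (sub_eq_zero.1 h3))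
          · exact Or.inr (Or.inr (Or.inl (sub_eq_zero.1 h3)))
        · exact Or.inr (Or.inr (Or.inr (sub_eq_zero.1 h2)))
    rcases hx with hx | hx | hx | hx
    · have := (Affine.Point.X_eq_iff (h₁ := hxy) (h₂ := nsT hW h)).1 hx
      rw [← pt_of (nsT hW h)] at this
      rcases this with e | e
      · exact ⟨1, 0, by rw [e]; simp⟩
      · exact ⟨-1, 0, by rw [e]; simp⟩
    · have := (Affine.Point.X_eq_iff (h₁ := hxy) (h₂ := nsW hW h)).1 hx
      rw [← pt_of (nsW hW h)] at this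
      rcases this with e | e
      · exact ⟨0, 1, by rw [e]; simp⟩
      · exact ⟨0, -1, by rw [e]; simp⟩
    · have := (Affine.Point.X_eq_iff (h₁ := hxy) (h₂ := nsW hW h.next)).1 hx
      rw [← pt_of (nsW hW h.next), w_next hW h] at this
      rcases this with e | e
      · exact ⟨-1, 1, by rw [e]; simp only [neg_zsmul, one_zsmul]; abel⟩
      · exact ⟨1, -1, by rw [e]; simp only [neg_zsmul, one_zsmul]; abel⟩
    · have := (Affine.Point.X_eq_iff (h₁ := hxy) (h₂ := nsW hW h.next.next)).1 hx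
      rw [← pt_of (nsW hW h.next.next), w_next hW h.next, w_next hW h] at this
      rcases this with e | e
      · exact ⟨-2, 1, by rw [e]; simp only [neg_zsmul, one_zsmul, two_zsmul]; abel⟩
      · exact ⟨2, -1, by rw [e]; simp only [neg_zsmul, one_zsmul, two_zsmul]; abel⟩

theorem indep3 {W : Affine F} {d a b r ζ θ : F} (hW : IsE W d a b) (h : Rts d a b r ζ θ)
    (m n : ℤ) (e : m • pt W 0 (b * r) + n • pt W (xx d a θ) (yy d a r ζ θ) = 0) :
    (3 : ℤ) ∣ m ∧ (3 : ℤ) ∣ n := by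
  have ht := t_ne hW h
  have hw : ∀ Q : W.Point, (Q = 0 ∨ Q = pt W 0 (b * r) ∨ Q = -pt W 0 (b * r)) →
      pt W (xx d a θ) (yy d a r ζ θ) ≠ Q := by
    intro Q hQ e
    rw [← e] at hQ
    rw [pt_of (nsW hW h), pt_of (nsT hW h)] at hQ
    rcases hQ with h0 | h0
    · exact Affine.Point.some_ne_zero _ h0
    · exact xx_ne h ((Affine.Point.X_eq_iff (h₁ := nsW hW h) (h₂ := nsT hW h)).2 h0)
  rcases zs3 (tors_t hW h) m with ⟨h1, h1'⟩ | ⟨h1, h1'⟩ | ⟨h1, h1'⟩ <;>
  rcases zs3 (tors_w hW h) n with ⟨h2, h2'⟩ | ⟨h2, h2'⟩ | ⟨h2, h2'⟩ <;>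
  rw [h1', h2'] at e
  · exact ⟨h1, h2⟩
  · exact absurd (by simpa using e) (hw 0 (Or.inl rfl))
  · exact absurd (by simpa using e) (hw 0 (Or.inl rfl))
  · exact absurd (by simpa using e) ht
  · exact absurd (eq_neg_of_add_eq_zero_right e) (hw _ (Or.inr (Or.inr rfl)))
  · exact absurd (add_neg_eq_zero.1 e).symm (hw _ (Or.inr (Or.inl rfl)))
  · exact absurd (by simpa using e) ht
  · exact absurd (neg_add_eq_zero.1 e).symm (hw _ (Or.inr (Or.inl rfl)))
  · exact absurd (neg_injective (eq_neg_of_add_eq_zero_right e)) (hw _ (Or.inr (Or.inr rfl)))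

/-- The structure of the 3-torsion of `y² = x³ + d (a x + b)²`. -/
theorem str3 {W : Affine F} {d a b r ζ θ : F} (hW : IsE W d a b) (h : Rts d a b r ζ θ) :
    3 • (pt W 0 (b * r)) = 0 ∧ 3 • (pt W (xx d a θ) (yy d a r ζ θ)) = 0 ∧
    (∀ P : W.Point, 3 • P = 0 →
      ∃ m n : ℤ, P = m • pt W 0 (b * r) + n • pt W (xx d a θ) (yy d a r ζ θ)) ∧
    ∀ m n : ℤ, m • pt W 0 (b * r) + n • pt W (xx d a θ) (yy d a r ζ θ) = 0 →
      (3 : ℤ) ∣ m ∧ (3 : ℤ) ∣ n :=
  ⟨tors_t hW h, tors_w hW h, span3 hW h, indep3 hW h⟩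

end Str

end Pool.Agent.Helper58.IQ
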