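import Pool.Agent.Helper58.IQ.S2b

/-!
# The isomorphism class of `E[3]`
-/

open scoped NumberField
open WeierstrassCurve

namespace Pool.Agent.Helper58.IQ

variable {K : Type*} [Field K] [CharZero K]

theorem qch_unique {d : K} {g : GK K} {r : Kb K} (hr : r ^ 2 = algebraMap K (Kb K) d)
    (h0 : r ≠ 0) {c : ℤˣ} (hc : g r = (c : ℤ) • r) : qch d g = c := by
  have h := qch_spec d g hr
  rw [hc] at h
  rcases Int.units_eq_one_or (qch d g) with h1 | h1 <;> rcases Int.units_eq_one_or c with h2 | h2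
  · rw [h1, h2]
  · exfalso
    rw [h1, h2] at h
    simp only [Units.val_neg, Units.val_one, neg_zsmul, one_zsmul] at h
    apply h0
    have : (2 : Kb K) * r = 0 := by linear_combination -h
    exact (mul_eq_zero.1 this).resolve_left two_ne_zero
  · exfalso
    rw [h1, h2] at h
    simp only [Units.val_neg, Units.val_one, neg_zsmul, one_zsmul] at h
    apply h0
    have : (2 : Kb K) * r = 0 := by linear_combination h
    exact (mul_eq_zero.1 this).resolve_left two_ne_zero
  · rw [h1, h2]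

theorem sqr_ne {d : K} (hd : d ≠ 0) : sqr d ≠ 0 := by
  intro h
  have := sqr_sq d
  rw [h] at this
  apply hd
  rw [← (map_eq_zero (algebraMap K (Kb K)) : _ ↔ d = 0), ← this]
  ring

theorem qch_sq {d u : K} (hd : d ≠ 0) (hu : u ≠ 0) : qch (d * u ^ 2) = qch d := by
  ext g : 1
  have hu' : algebraMap K (Kb K) u ≠ 0 := by
    rw [Ne, map_eq_zero]
    exact hu
  apply qch_unique (r := algebraMap K (Kb K) u * sqr d)
  · rw [mul_pow, sqr_sq, map_mul, map_pow]
    ring
  · exact mul_ne_zero hu' (sqr_ne hd)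
  · rw [map_mul, AlgEquiv.commutes, qch_sqr, mul_smul_comm]

theorem E_iso {d a b d' a' b' : K} (h : Good d a b) (h' : Good d' a' b') {u c : K} (hu : u ≠ 0)
    (hc : c ≠ 0) (hd : d' = d * u ^ 2) (hδ : del d' a' b' = del d a b * c ^ 3) :
    Iso (torRep (E d a b)) (torRep (E d' a' b')) := by
  obtain ⟨θ, hθ⟩ := IsAlgClosed.exists_pow_nat_eq (algebraMap K (Kb K) (del d a b))
    (n := 3) (by norm_num)
  obtain ⟨t, w, hf, -⟩ := form_E h hθ
  have hθ' : (algebraMap K (Kb K) c * θ) ^ 3 = algebraMap K (Kb K) (del d' a' b') := by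
    rw [mul_pow, hθ, hδ, map_mul, map_pow]
    ring
  obtain ⟨t', w', hf', -⟩ := form_E h' hθ'
  have hk : kk (algebraMap K (Kb K) c * θ) = kk θ := funext fun g => kk_mul hc g
  have h1 : qch d' = qch d := by rw [hd, qch_sq h.1 hu]
  have h2 : qch (-3 * d') = qch (-3 * d) := by
    rw [hd, show -3 * (d * u ^ 2) = (-3 * d) * u ^ 2 by ring]
    exact qch_sq (mul_ne_zero (by norm_num) h.1) hu
  rw [hk, h1, h2] at hf'
  exact hf.iso hf'

theorem E_split {d a b : K} (h : Good d a b) {c : K} (hδ : del d a b = c ^ 3) :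
    Iso (torRep (E d a b)) (prodRep (chRep (qch d)) (chRep (qch (-3 * d)))) := by
  have hθ : (algebraMap K (Kb K) c) ^ 3 = algebraMap K (Kb K) (del d a b) := by
    rw [hδ, map_pow]
  obtain ⟨t, w, hf, -⟩ := form_E h hθ
  have hk : kk (algebraMap K (Kb K) c) = fun _ => 0 := by
    funext g
    unfold kk
    rw [if_pos (AlgEquiv.commutes g c)]
  rw [hk] at hf
  exact hf.iso (form_prod _ _)

theorem Iso.symm {G : Type*} [Group G] {M N : Type*} [AddCommGroup M] [AddCommGroup N]
    {ρ : G →* AddMonoid.End M} {σ : G →* AddMonoid.End N} (h : Iso ρ σ) : Iso σ ρ := by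
  obtain ⟨e, he⟩ := h
  refine ⟨e.symm, fun g m => ?_⟩
  rw [AddEquiv.symm_apply_eq, he, AddEquiv.apply_symm_apply]

theorem Iso.trans {G : Type*} [Group G] {M N L : Type*} [AddCommGroup M] [AddCommGroup N]
    [AddCommGroup L] {ρ : G →* AddMonoid.End M} {σ : G →* AddMonoid.End N}
    {τ : G →* AddMonoid.End L} (h : Iso ρ σ) (h' : Iso σ τ) : Iso ρ τ := by
  obtain ⟨e, he⟩ := h
  obtain ⟨e', he'⟩ := h'
  exact ⟨e.trans e', fun g m => by
    change e' (e (ρ g m)) = τ g (e' (e m))
    rw [he, he']⟩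

/-- The curve with `a = 0` and invariants `d`, `δ`. -/
def b0 (d δ : K) : K := -4 * d * δ / 27

theorem good0 {d δ : K} (hd : d ≠ 0) (hδ : δ ≠ 0) : Good d 0 (b0 d δ) := by
  have hb : b0 d δ ≠ 0 := by
    unfold b0
    exact div_ne_zero (mul_ne_zero (mul_ne_zero (by norm_num) hd) hδ) (by norm_num)
  refine ⟨hd, hb, ?_⟩
  intro h
  apply hb
  have : (27 : K) * b0 d δ = 0 := by linear_combination -h
  exact (mul_eq_zero.1 this).resolve_left (by norm_num)

theorem del0 {d δ : K} (hd : d ≠ 0) : del d 0 (b0 d δ) = δ := by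
  unfold del b0
  field_simp
  ring

/-- The curve with given `a` and invariants `d`, `δ`. -/
def b1 (d a δ : K) : K := 4 * d * (a ^ 3 - δ) / 27

theorem good1 {d a δ : K} (hd : d ≠ 0) (hδ : δ ≠ 0) (ha : a ^ 3 ≠ δ) : Good d a (b1 d a δ) := by
  have hb : b1 d a δ ≠ 0 := by
    unfold b1
    exact div_ne_zero (mul_ne_zero (mul_ne_zero (by norm_num) hd) (sub_ne_zero.2 ha))
      (by norm_num)
  refine ⟨hd, hb, ?_⟩
  intro h
  unfold b1 at h
  have : (4 : K) * d * δ = 0 := by linear_combination h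
  rcases mul_eq_zero.1 this with h1 | h1
  · exact hd ((mul_eq_zero.1 h1).resolve_left (by norm_num))
  · exact hδ h1

theorem del1 {d a δ : K} (hd : d ≠ 0) : del d a (b1 d a δ) = δ := by
  unfold del b1
  field_simp
  ring

/-- The dual curve. -/
theorem good_dual {d a b : K} (h : Good d a b) :
    Good (-3 * d) a ((27 * b - 4 * a ^ 3 * d) / 9) := by
  refine ⟨mul_ne_zero (by norm_num) h.1, ?_, ?_⟩
  · intro h0
    have : 27 * b - 4 * a ^ 3 * d = 0 := by
      have := (div_eq_zero_iff.1 h0).resolve_right (by norm_num)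
      exact this
    exact h.2.2 (by linear_combination -this)
  · intro h0
    apply h.2.1
    have : (81 : K) * b = 0 := by linear_combination -h0
    exact (mul_eq_zero.1 this).resolve_left (by norm_num)

theorem del_dual {d a b : K} (h : Good d a b) :
    del (-3 * d) a ((27 * b - 4 * a ^ 3 * d) / 9) = a ^ 3 - del d a b := by
  have hd := h.1
  unfold del
  field_simp
  ring

end Pool.Agent.Helper58.IQ
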