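import Pool.Agent.Helper58.IQ.Stmt
import Pool.Agent.Helper58.IQ.S2c
import Pool.Agent.Helper21.EC.Family

/-!
# The form of `W[3]` for a curve with a stable subgroup of order 3
-/

open scoped NumberField
open WeierstrassCurve

namespace Pool.Agent.Helper58.IQ

variable {K : Type*} [Field K] [CharZero K]

theorem formW (W : WeierstrassCurve K) (hW : W.Δ ≠ 0) (T : AddSubgroup (Pts W))
    (hs : Stab W T) (hT : T ≤ tor3 W) (hc : Nat.card T = 3) :
    ∃ d a b : K, Good d a b ∧ Iso (torRep W) (torRep (E d a b)) ∧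
      Iso (lineRep W T hs) (chRep (qch d)) ∧ Iso (quotRep W T hs) (chRep (qch (-3 * d))) ∧
      ∃ (t w : tor3 W) (k : GK K → ℤ), Form (torRep W) t w (qch d) (qch (-3 * d)) k ∧
        ∀ P : tor3 W, (P : Pts W) ∈ T ↔ ∃ m : ℤ, P = m • t := by
  obtain ⟨d, a, b, hG, e, he, hTe⟩ := Pool.Agent.Helper21.EC.family W hW T hT hs hc
  obtain ⟨θ, hθ⟩ := IsAlgClosed.exists_pow_nat_eq (algebraMap K (Kb K) (del d a b))
    (n := 3) (by norm_num)
  obtain ⟨t, w, hf, hl⟩ := form_E hG hθ
  -- the equivalence of the 3-torsion subgroups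
  have hmem : ∀ P : Pts W, P ∈ tor3 W ↔ e P ∈ tor3 (E d a b) := by
    intro P
    rw [mem_tor3, mem_tor3, ← map_nsmul]
    constructor
    · intro h
      rw [h, map_zero]
    · intro h
      exact e.injective (by rw [h, map_zero])
  let e₃ : tor3 W ≃+ tor3 (E d a b) :=
    { toFun := fun P => ⟨e P, (hmem P).1 P.2⟩
      invFun := fun Q => ⟨e.symm Q, (hmem _).2 (by rw [AddEquiv.apply_symm_apply]; exact Q.2)⟩
      left_inv := fun P => Subtype.ext (e.symm_apply_apply P)
      right_inv := fun Q => Subtype.ext (e.apply_symm_apply Q)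
      map_add' := fun P Q => Subtype.ext (map_add e (P : Pts W) Q) }
  have he₃ : ∀ g P, e₃ (torRep W g P) = torRep (E d a b) g (e₃ P) :=
    fun g P => Subtype.ext (he g P)
  have hiso : Iso (torRep W) (torRep (E d a b)) := ⟨e₃, he₃⟩
  have he₃' : ∀ g Q, e₃.symm (torRep (E d a b) g Q) = torRep W g (e₃.symm Q) := by
    intro g Q
    rw [AddEquiv.symm_apply_eq, he₃, AddEquiv.apply_symm_apply]
  have hf' := hf.map e₃.symm he₃'
  have hline : ∀ P : tor3 W, (P : Pts W) ∈ T ↔ ∃ m : ℤ, P = m • e₃.symm t := by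
    intro P
    rw [hTe]
    have h1 := hl (e₃ P)
    change (∃ m : ℤ, e₃ P = m • t) ↔ (e (P : Pts W) = 0 ∨ ∃ y hy, e (P : Pts W) = _) at h1
    rw [← h1]
    constructor
    · rintro ⟨m, hm⟩
      refine ⟨m, ?_⟩
      rw [← map_zsmul, ← hm, AddEquiv.symm_apply_apply]
    · rintro ⟨m, hm⟩
      refine ⟨m, ?_⟩
      rw [hm, map_zsmul, AddEquiv.apply_symm_apply]
  refine ⟨d, a, b, hG, hiso, ?_, ?_, e₃.symm t, e₃.symm w, kk θ, hf', hline⟩
  · -- the line
    have ht : ((e₃.symm t : tor3 W) : Pts W) ∈ T := (hline _).2 ⟨1, (one_zsmul _).symm⟩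
    let v : tor3 W → Pts W := fun P => (P : Pts W)
    let v' : T → Pts W := fun P => (P : Pts W)
    refine cyc_iso (a := (⟨_, ht⟩ : T)) ?_ ?_ ?_ ?_
    · rintro ⟨P, hP⟩
      obtain ⟨m, hm⟩ := (hline ⟨P, hT hP⟩).1 hP
      have h1 := congrArg v hm
      exact ⟨m, Subtype.ext h1⟩
    · have h1 := congrArg v hf'.t3
      exact Subtype.ext h1
    · intro h0
      apply hf'.t_ne
      have h1 := congrArg v' h0
      exact Subtype.ext h1
    · intro g
      have h1 := congrArg v (hf'.gt g)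
      exact Subtype.ext h1
  · exact hf'.quo_iso (T := T.addSubgroupOf (tor3 W)) (fun P => hline P) _

end Pool.Agent.Helper58.IQ
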