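import Mathlib

/-!
# Conjecture A at a prime p for modules over the absolute Galois group of a number field

`Kb K` is an algebraic closure of `K`, `GK K` its Galois group over `K`. A module over a group
`G` is an abelian group `M` together with a homomorphism from `G` to `AddMonoid.End M`.
-/

open scoped NumberField

namespace Pool.Agent.Helper58.IQ

/-- An algebraic closure of `K`. -/
abbrev Kb (K : Type*) [Field K] := AlgebraicClosure K

/-- The absolute Galois group of `K`. -/
abbrev GK (K : Type*) [Field K] := AlgebraicClosure K ≃ₐ[K] AlgebraicClosure K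

/-- The Galois group of `Kb / K_cyc`, where `K_cyc` is the cyclotomic `ℤ_p`-extension of `K`
(`p` odd): the elements whose image under the cyclotomic character is a `(p-1)`-st root of
unity. -/
noncomputable def Gcyc (K : Type*) [Field K] (p : ℕ) [Fact p.Prime] : Subgroup (GK K) :=
  ((powMonoidHom (p - 1)).comp ((cyclotomicCharacter (Kb K) p).comp
    (MulSemiringAction.toRingAut (GK K) (Kb K)))).ker

/-- The inertia group in `Gal(Kb/K)` of a prime `P` of the ring of integers of `Kb`. -/
noncomputable def inert {K : Type*} [Field K] (P : Ideal (𝓞 (Kb K))) : Subgroup (GK K) :=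
  P.toAddSubgroup.inertia (GK K)

/-- The Galois group `Gal(Kb/K_S)`, where `K_S` is the maximal extension of `K_cyc` unramified
outside `S`: the closed subgroup of `Gal(Kb/K_cyc)` generated by the inertia groups at the primes
which do not lie over `S`. -/
noncomputable def NS (K : Type*) [Field K] (p : ℕ) [Fact p.Prime] (S : Set (Ideal (𝓞 K))) :
    Subgroup (GK K) :=
  Subgroup.topologicalClosure
    (⨆ P : {P : Ideal (𝓞 (Kb K)) // P.IsPrime ∧ P ≠ ⊥ ∧ P.under (𝓞 K) ∉ S},
      inert P.1 ⊓ Gcyc K p)

/-- `H²(G_S(K_cyc), M) = 0`, where `G_S(K_cyc) = Gal(K_S/K_cyc)`, by continuous cochains; the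
cochains of `Gal(K_S/K_cyc)` are the cochains of `Gal(Kb/K_cyc)` which are invariant under
`Gal(Kb/K_S)` in each variable. -/
def H2Zero {K : Type*} [Field K] (p : ℕ) [Fact p.Prime] (S : Set (Ideal (𝓞 K)))
    {M : Type*} [AddCommGroup M] (ρ : GK K →* AddMonoid.End M) : Prop :=
  ∀ f : Gcyc K p → Gcyc K p → M,
    IsLocallyConstant (fun x : Gcyc K p × Gcyc K p => f x.1 x.2) →
    (∀ g h n m : Gcyc K p, (n : GK K) ∈ NS K p S → (m : GK K) ∈ NS K p S →
      f (g * n) (h * m) = f g h) →
    (∀ g h k : Gcyc K p,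
      ρ (g : GK K) (f h k) - f (g * h) k + f g (h * k) - f g h = 0) →
    ∃ u : Gcyc K p → M, IsLocallyConstant u ∧
      (∀ g n : Gcyc K p, (n : GK K) ∈ NS K p S → u (g * n) = u g) ∧
      ∀ g h : Gcyc K p, f g h = ρ (g : GK K) (u h) - u (g * h) + u g

/-- The finite sets `S` of primes of `K` that contain the primes above `p` and the primes at
which `M` is ramified. -/
def Adm {K : Type*} [Field K] (p : ℕ) {M : Type*} [AddCommGroup M]
    (ρ : GK K →* AddMonoid.End M) (S : Set (Ideal (𝓞 K))) : Prop :=
  S.Finite ∧ ∀ P : Ideal (𝓞 (Kb K)), P.IsPrime → P ≠ ⊥ → P.under (𝓞 K) ∉ S →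
    (p : 𝓞 (Kb K)) ∉ P ∧ ∀ g ∈ inert P, ρ g = 1

/-- Conjecture `A(K, M)`: `H²(G_S(K_cyc), M) = 0` for every finite set `S` of primes of `K` that
contains the primes above `p` and the primes at which `M` is ramified. -/
def ConjA {K : Type*} [Field K] (p : ℕ) [Fact p.Prime]
    {M : Type*} [AddCommGroup M] (ρ : GK K →* AddMonoid.End M) : Prop :=
  ∀ S : Set (Ideal (𝓞 K)), Adm p ρ S → H2Zero p S ρ

/-- Isomorphism of modules over a group. -/
def Iso {G : Type*} [Group G] {M N : Type*} [AddCommGroup M] [AddCommGroup N]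
    (ρ : G →* AddMonoid.End M) (σ : G →* AddMonoid.End N) : Prop :=
  ∃ e : M ≃+ N, ∀ g m, e (ρ g m) = σ g (e m)

/-- The module structure on a stable subgroup. -/
def subRep {G : Type*} [Group G] {A : Type*} [AddCommGroup A] (ρ : G →* AddMonoid.End A)
    (H : AddSubgroup A) (hH : ∀ g, ∀ x ∈ H, ρ g x ∈ H) : G →* AddMonoid.End H where
  toFun g := AddMonoidHom.mk' (fun x => (⟨ρ g x, hH g x x.2⟩ : H))
    (fun x y => Subtype.ext (map_add (ρ g) (x : A) y))
  map_one' := AddMonoidHom.ext fun x => Subtype.ext (by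
    change ρ 1 (x : A) = x
    rw [map_one]
    rfl)
  map_mul' g h := AddMonoidHom.ext fun x => Subtype.ext (by
    change ρ (g * h) (x : A) = ρ g (ρ h x)
    rw [map_mul]
    rfl)

/-- The module structure on the quotient by a stable subgroup. -/
def quoRep {G : Type*} [Group G] {A : Type*} [AddCommGroup A] (ρ : G →* AddMonoid.End A)
    (H : AddSubgroup A) (hH : ∀ g, ∀ x ∈ H, ρ g x ∈ H) : G →* AddMonoid.End (A ⧸ H) where
  toFun g := QuotientAddGroup.map H H (ρ g) (fun x hx => hH g x hx)
  map_one' := AddMonoidHom.ext fun x => by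
    induction x using QuotientAddGroup.induction_on with
    | H x =>
      change QuotientAddGroup.mk (ρ 1 x) = QuotientAddGroup.mk x
      rw [map_one]
      rfl
  map_mul' g h := AddMonoidHom.ext fun x => by
    induction x using QuotientAddGroup.induction_on with
    | H x =>
      change QuotientAddGroup.mk (ρ (g * h) x) = QuotientAddGroup.mk (ρ g (ρ h x))
      rw [map_mul]
      rfl

end Pool.Agent.Helper58.IQ
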