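import Pool.Agent.Helper58.IQ.Defs

/-!
# Direct sums and quadratic characters
-/

open scoped NumberField

namespace Pool.Agent.Helper58.IQ

/-- Direct sum of two modules. -/
def prodRep {G : Type*} [Group G] {M N : Type*} [AddCommGroup M] [AddCommGroup N]
    (ρ : G →* AddMonoid.End M) (σ : G →* AddMonoid.End N) : G →* AddMonoid.End (M × N) where
  toFun g := AddMonoidHom.prodMap (ρ g) (σ g)
  map_one' := AddMonoidHom.ext fun x => by
    change (ρ 1 x.1, σ 1 x.2) = x
    rw [map_one, map_one]
    rfl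
  map_mul' g h := AddMonoidHom.ext fun x => by
    change (ρ (g * h) x.1, σ (g * h) x.2) = (ρ g (ρ h x.1), σ g (σ h x.2))
    rw [map_mul, map_mul]
    rfl

theorem prodRep_apply {G : Type*} [Group G] {M N : Type*} [AddCommGroup M] [AddCommGroup N]
    (ρ : G →* AddMonoid.End M) (σ : G →* AddMonoid.End N) (g : G) (x : M × N) :
    prodRep ρ σ g x = (ρ g x.1, σ g x.2) := rfl

/-- The group of order 3 on which `G` acts by the character `χ : G → {1, -1}`. -/
def chRep {G : Type*} [Group G] (χ : G →* ℤˣ) : G →* AddMonoid.End (ZMod 3) :=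
  (DistribMulAction.toAddMonoidEnd ℤˣ (ZMod 3)).comp χ

theorem chRep_apply {G : Type*} [Group G] (χ : G →* ℤˣ) (g : G) (x : ZMod 3) :
    chRep χ g x = ((χ g : ℤˣ) : ℤ) • x := rfl

variable {K : Type*} [Field K] [CharZero K]

/-- A square root of `d` in `Kb`. -/
noncomputable def sqr (d : K) : Kb K :=
  Classical.choose (IsAlgClosed.exists_pow_nat_eq (algebraMap K (Kb K) d) two_pos)

theorem sqr_sq (d : K) : sqr d ^ 2 = algebraMap K (Kb K) d :=
  Classical.choose_spec (IsAlgClosed.exists_pow_nat_eq (algebraMap K (Kb K) d) two_pos)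

theorem sqr_cases (d : K) (g : GK K) : g (sqr d) = sqr d ∨ g (sqr d) = -sqr d := by
  have h : (g (sqr d)) ^ 2 = (sqr d) ^ 2 := by
    rw [← map_pow, sqr_sq, AlgEquiv.commutes]
  exact sq_eq_sq_iff_eq_or_eq_neg.1 h

theorem sqr_neg_ne {d : K} (h : sqr d ≠ -sqr d → False) : sqr d = 0 := by
  by_contra h0
  apply h
  intro h1
  apply h0
  have : (2 : Kb K) * sqr d = 0 := by linear_combination h1
  exact (mul_eq_zero.1 this).resolve_left two_ne_zero

open scoped Classical in
/-- The quadratic (or trivial) character of `Gal(Kb/K)` belonging to `K(√d)`. -/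
noncomputable def qch (d : K) : GK K →* ℤˣ where
  toFun g := if g (sqr d) = sqr d then 1 else -1
  map_one' := by simp
  map_mul' g h := by
    by_cases hz : sqr d = 0
    · simp [hz]
    have hne : -sqr d ≠ sqr d := by
      intro h0
      exact hz (sqr_neg_ne fun h1 => h1 h0.symm)
    rw [AlgEquiv.mul_apply]
    rcases sqr_cases d g with hg | hg <;> rcases sqr_cases d h with hh | hh
    · rw [hh, hg]
      simp
    · rw [hh, map_neg, hg]
      simp [hne]
    · rw [hh, hg]
      simp [hne]
    · rw [hh, map_neg, hg, neg_neg]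
      simp [hne]

theorem qch_sqr (d : K) (g : GK K) : g (sqr d) = ((qch d g : ℤˣ) : ℤ) • sqr d := by
  classical
  change _ = (((if g (sqr d) = sqr d then 1 else -1 : ℤˣ)) : ℤ) • sqr d
  by_cases h : g (sqr d) = sqr d
  · rw [if_pos h, h]
    simp
  · rw [if_neg h, (sqr_cases d g).resolve_left h]
    simp

/-- The character `qch d` acts on every square root of `d`. -/
theorem qch_spec (d : K) (g : GK K) {r : Kb K} (hr : r ^ 2 = algebraMap K (Kb K) d) :
    g r = ((qch d g : ℤˣ) : ℤ) • r := by
  rw [← sqr_sq] at hr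
  rcases sq_eq_sq_iff_eq_or_eq_neg.1 hr with h | h
  · rw [h, qch_sqr]
  · rw [h, map_neg, qch_sqr, smul_neg]

end Pool.Agent.Helper58.IQ
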