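import Pool.Agent.Helper58.IQ.Split

/-!
# The split form and the dependence on the semisimplification
-/

open scoped NumberField
open WeierstrassCurve

namespace Pool.Agent.Helper58.IQ

variable {K : Type*} [Field K] [CharZero K]

theorem chRep_inj {G : Type*} [Group G] {χ χ' : G →* ℤˣ} (h : Iso (chRep χ) (chRep χ')) :
    χ = χ' := by
  obtain ⟨e, he⟩ := h
  ext g : 1
  have h1 : e 1 ≠ 0 := by
    intro h0
    have : (1 : ZMod 3) = 0 := e.injective (by rw [h0, map_zero])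
    exact absurd this (by decide)
  have h2 := he g 1
  rw [chRep_apply, chRep_apply, map_zsmul] at h2
  have key : ∀ x : ZMod 3, x ≠ 0 → -x ≠ x := by decide
  rcases Int.units_eq_one_or (χ g) with h3 | h3 <;>
  rcases Int.units_eq_one_or (χ' g) with h4 | h4
  · rw [h3, h4]
  · exfalso
    rw [h3, h4] at h2
    simp only [Units.val_neg, Units.val_one, neg_zsmul, one_zsmul] at h2
    exact key _ h1 h2.symm
  · exfalso
    rw [h3, h4] at h2
    simp only [Units.val_neg, Units.val_one, neg_zsmul, one_zsmul] at h2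
    exact key _ h1 h2
  · rw [h3, h4]

theorem qch_mul {d e : K} (hd : d ≠ 0) (he : e ≠ 0) : qch (d * e) = qch d * qch e := by
  ext g : 1
  apply qch_unique (r := sqr d * sqr e)
  · rw [mul_pow, sqr_sq, sqr_sq, map_mul]
  · exact mul_ne_zero (sqr_ne hd) (sqr_ne he)
  · rw [map_mul, qch_sqr, qch_sqr, MonoidHom.mul_apply, Units.val_mul, smul_mul_smul_comm]

theorem qch_dual {d e : K} (hd : d ≠ 0) (he : e ≠ 0) (h : qch d = qch e) :
    qch (-3 * d) = qch (-3 * e) := by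
  have h3 : (-3 : K) ≠ 0 := by norm_num
  rw [qch_mul h3 hd, qch_mul h3 he, h]

theorem qch_dual_dual {d : K} (hd : d ≠ 0) : qch (-3 * (-3 * d)) = qch d := by
  rw [show -3 * (-3 * d) = d * 3 ^ 2 by ring]
  exact qch_sq hd (by norm_num)

theorem line_of_split (hS : SplitInv K) : LineInv K := by
  intro W W' T T' hs hs' hW hW' hT hT' hc hc' hiso
  obtain ⟨d, a, b, hG, -, h2, h3, -⟩ := formW W hW T hs hT hc
  obtain ⟨d', a', b', hG', -, h2', h3', -⟩ := formW W' hW' T' hs' hT' hc'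
  rw [hS W T hs hW hT hc, hS W' T' hs' hW' hT' hc', Pool.Agent.Helper69.RY.conjA_iso 3 h2,
    Pool.Agent.Helper69.RY.conjA_iso 3 h3, Pool.Agent.Helper69.RY.conjA_iso 3 h2',
    Pool.Agent.Helper69.RY.conjA_iso 3 h3']
  rcases hiso with h | h
  · have e : qch d = qch d' := chRep_inj ((h2.symm.trans h).trans h2')
    rw [e, qch_dual hG.1 hG'.1 e]
  · have e : qch d = qch (-3 * d') := chRep_inj ((h2.symm.trans h).trans h3')
    have h3 : (-3 : K) ≠ 0 := by norm_num
    have e' : qch (-3 * d) = qch d' := by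
      rw [qch_dual hG.1 (mul_ne_zero h3 hG'.1) e, qch_dual_dual hG'.1]
    rw [e', ← e]
    exact and_comm

/-- The line spanned by `t`. -/
theorem line_of_form {W : WeierstrassCurve K} {t w : tor3 W} {χ₁ χ₂ : GK K →* ℤˣ}
    {k : GK K → ℤ} (hf : Form (torRep W) t w χ₁ χ₂ k) :
    ∃ (T : AddSubgroup (Pts W)) (hs : Stab W T), T ≤ tor3 W ∧ Nat.card T = 3 ∧
      Iso (lineRep W T hs) (chRep χ₁) := by
  have ht : ∀ g, ptsRep W g (t : Pts W) = ((χ₁ g : ℤˣ) : ℤ) • (t : Pts W) := fun g =>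
    congrArg (fun P : tor3 W => (P : Pts W)) (hf.gt g)
  have h3 : 3 • (t : Pts W) = 0 := congrArg (fun P : tor3 W => (P : Pts W)) hf.t3
  have hne : (t : Pts W) ≠ 0 := fun h0 => hf.t_ne (Subtype.ext h0)
  have hs : Stab W (AddSubgroup.zmultiples (t : Pts W)) := by
    intro g P hP
    obtain ⟨m, rfl⟩ := AddSubgroup.mem_zmultiples_iff.1 hP
    rw [map_zsmul, ht, smul_smul]
    exact AddSubgroup.mem_zmultiples_iff.2 ⟨_, rfl⟩
  refine ⟨AddSubgroup.zmultiples (t : Pts W), hs, ?_, ?_, ?_⟩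
  · rw [AddSubgroup.zmultiples_le]
    exact t.2
  · rw [Nat.card_zmultiples]
    exact addOrderOf_eq_prime h3 hne
  · have htm : (t : Pts W) ∈ AddSubgroup.zmultiples (t : Pts W) :=
      AddSubgroup.mem_zmultiples _
    refine cyc_iso (a := (⟨t, htm⟩ : AddSubgroup.zmultiples (t : Pts W))) ?_ ?_ ?_ ?_
    · rintro ⟨P, hP⟩
      obtain ⟨m, hm⟩ := AddSubgroup.mem_zmultiples_iff.1 hP
      exact ⟨m, Subtype.ext hm.symm⟩
    · exact Subtype.ext h3
    · intro h0
      exact hne (congrArg (fun P : AddSubgroup.zmultiples (t : Pts W) => (P : Pts W)) h0)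
    · intro g
      exact Subtype.ext (ht g)

theorem line_E {d δ : K} (hd : d ≠ 0) (hδ : δ ≠ 0) :
    ∃ (T : AddSubgroup (Pts (E d 0 (b0 d δ)))) (hs : Stab _ T), T ≤ tor3 _ ∧
      Nat.card T = 3 ∧ Iso (lineRep _ T hs) (chRep (qch d)) := by
  have hG := good0 hd hδ
  obtain ⟨θ, hθ⟩ := IsAlgClosed.exists_pow_nat_eq
    (algebraMap K (Kb K) (del d 0 (b0 d δ))) (n := 3) (by norm_num)
  obtain ⟨t, w, hf, -⟩ := form_E hG hθ
  exact line_of_form hf

theorem split_of_line (hL : LineInv K) : SplitInv K := by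
  intro W T hs hW hT hc
  apply split_of_QQ W T hs hW hT hc
  intro d δ hd hδ
  obtain ⟨T₁, hs₁, hT₁, hc₁, hi₁⟩ := line_E hd hδ
  obtain ⟨T₂, hs₂, hT₂, hc₂, hi₂⟩ := line_E hd (one_ne_zero (α := K))
  exact hL _ _ T₁ T₂ hs₁ hs₂ (disc_ne (good0 hd hδ)) (disc_ne (good0 hd one_ne_zero)) hT₁ hT₂
    hc₁ hc₂ (Or.inl (hi₁.trans hi₂.symm))

end Pool.Agent.Helper58.IQ
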