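import Pool.Agent.Helper58.IQ.ExtStmt
import Pool.Agent.Helper58.IQ.Line
import Pool.Agent.Helper21.EC.Inv
import Pool.Agent.Helper99.IS.Hilbert90
import Pool.Agent.Helper69.RY.Kummer

/-!
# The split form for elliptic curves and for all extensions
-/

open scoped NumberField
open WeierstrassCurve

universe u

namespace Pool.Agent.Helper58.IQ

section

variable {K : Type u} [Field K] [CharZero K] {χ : GK K →* ℤˣ}

/-- The `d` whose character is `χ` or `χω`. -/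
def Mem (χ : GK K →* ℤˣ) (d : K) : Prop := qch d = χ ∨ qch d = χ * om K

theorem om_mul_om : om K * om K = 1 := by
  ext g : 1
  exact Int.units_mul_self _

theorem mul_om_om (ψ : GK K →* ℤˣ) : ψ * om K * om K = ψ := by
  rw [mul_assoc, om_mul_om, mul_one]

theorem qch_om {d : K} (hd : d ≠ 0) : qch (-3 * d) = qch d * om K := by
  rw [qch_mul (by norm_num) hd, mul_comm]
  rfl

theorem Mem.dual {d : K} (hd : d ≠ 0) (h : Mem χ d) : Mem χ (-3 * d) := by
  rcases h with h | h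
  · right
    rw [qch_om hd, h]
  · left
    rw [qch_om hd, h, mul_om_om]

theorem mem_dual {d : K} (hd : d ≠ 0) : Mem χ (-3 * d) ↔ Mem χ d := by
  refine ⟨fun h => ?_, fun h => h.dual hd⟩
  have h1 := h.dual (mul_ne_zero (by norm_num) hd)
  rcases h1 with h1 | h1
  · left
    rw [← h1, qch_dual_dual hd]
  · right
    rw [← h1, qch_dual_dual hd]

theorem mem_sq {d u : K} (hd : d ≠ 0) (hu : u ≠ 0) : Mem χ (d * u ^ 2) ↔ Mem χ d := by
  unfold Mem
  rw [qch_sq hd hu]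

theorem Mem.conj {d : K} (hd : d ≠ 0) (h : Mem χ d) :
    (ConjA 3 (chRep (qch d)) ∧ ConjA 3 (chRep (qch (-3 * d)))) ↔
      ConjA 3 (chRep χ) ∧ ConjA 3 (chRep (χ * om K)) := by
  rcases h with h | h
  · rw [qch_om hd, h]
  · rw [qch_om hd, h, mul_om_om]
    exact and_comm

theorem has_E {d a b : K} (hG : Good d a b) (h : Mem χ d) : Has χ (E d a b) := by
  obtain ⟨θ, hθ⟩ := IsAlgClosed.exists_pow_nat_eq
    (algebraMap K (Kb K) (del d a b)) (n := 3) (by norm_num)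
  obtain ⟨t, w, hf, -⟩ := form_E hG hθ
  obtain ⟨T, hs, hT, -, hi⟩ := line_of_form hf
  rcases h with h | h
  · exact ⟨T, hs, hT, Or.inl (h ▸ hi)⟩
  · exact ⟨T, hs, hT, Or.inr (h ▸ hi)⟩

theorem has_form {W : WeierstrassCurve K} (hW : W.Δ ≠ 0) (h : Has χ W) :
    ∃ d a b : K, Good d a b ∧ Mem χ d ∧ Iso (torRep W) (torRep (E d a b)) := by
  obtain ⟨T, hs, hT, hi⟩ := h
  have hc : Nat.card T = 3 := by
    rcases hi with ⟨e, -⟩ | ⟨e, -⟩ <;>
    rw [Nat.card_congr e.toEquiv, Nat.card_zmod]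
  obtain ⟨d, a, b, hG, h1, h2, -⟩ := formW W hW T hs hT hc
  refine ⟨d, a, b, hG, ?_, h1⟩
  rcases hi with hi | hi
  · exact Or.inl (chRep_inj (h2.symm.trans hi))
  · exact Or.inr (chRep_inj (h2.symm.trans hi))

theorem step_at (hI : IsogAt K χ) {d δ a : K} (hm : Mem χ d) (hd : d ≠ 0) (hδ : δ ≠ 0)
    (ha : a ^ 3 ≠ δ) : QQ d δ ↔ QQ (-3 * d) (a ^ 3 - δ) := by
  have hG := good1 hd hδ ha
  have hG' := good_dual hG
  have h1 : ConjA 3 (torRep (E d a (b1 d a δ))) ↔ QQ d δ := by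
    have := QQ_of_E hG (by rw [del1 hd]; exact hδ)
    rwa [del1 hd] at this
  have h2 := QQ_of_E hG' (by rw [del_dual hG, del1 hd]; exact sub_ne_zero.2 ha)
  rw [del_dual hG, del1 hd] at h2
  rw [← h1, ← h2]
  exact hI _ _ (disc_ne hG) (disc_ne hG') (has_E hG hm) (has_E hG' (hm.dual hd))
    (Pool.Agent.Helper99.IS.isogeny d a _ hG)

theorem path_at (hI : IsogAt K χ) {d δ : K} (hm : Mem χ d) (hd : d ≠ 0) (hδ : δ ≠ 0) :
    QQ d δ ↔ QQ d 1 := by
  have h := Pool.Agent.Helper69.RY.path (fun d δ => Mem χ d → QQ d δ)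
    (fun d δ u c hd hδ hu hc => by rw [mem_sq hd hu, ← QQ_sq hd hδ hu hc])
    (fun d δ a hd hδ ha => by
      rw [mem_dual hd]
      constructor
      · intro h hm
        exact (step_at hI hm hd hδ ha).1 (h hm)
      · intro h hm
        exact (step_at hI hm hd hδ ha).2 (h hm)) d δ hd hδ
  simpa [hm] using h

theorem split_at_of_QQ (h : ∀ d δ : K, Mem χ d → d ≠ 0 → δ ≠ 0 → (QQ d δ ↔ QQ d 1)) :
    SplitAt K χ := by
  intro W hW hH
  obtain ⟨d, a, b, hG, hm, hi⟩ := has_form hW hH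
  rw [Pool.Agent.Helper69.RY.conjA_iso 3 hi, QQ_of_E hG (del_ne hG), h d _ hm hG.1 (del_ne hG),
    QQ_one hG.1]
  exact hm.conj hG.1

theorem split_at (hI : IsogAt K χ) : SplitAt K χ :=
  split_at_of_QQ fun _ _ hm hd hδ => path_at hI hm hd hδ

theorem const_at (hS : SplitAt K χ) : ConstAt K χ := fun W W' hW hW' hH hH' => by
  rw [hS W hW hH, hS W' hW' hH']

theorem isog_at (hC : ConstAt K χ) : IsogAt K χ := fun W W' hW hW' hH hH' _ =>
  hC W W' hW hW' hH hH'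

theorem ext_at (hS : SplitAt K χ) : ExtAt K χ := by
  intro M _ ρ N hN h3 hρ hi
  have key : ∃ ψ : GK K →* ℤˣ, (ψ = χ ∨ ψ = χ * om K) ∧ Iso (subRep ρ N hN) (chRep ψ) ∧
      Iso (quoRep ρ N hN) (chRep (ψ * qch (-3 : K))) := by
    rcases hi with ⟨h1, h2⟩ | ⟨h1, h2⟩
    · exact ⟨χ, Or.inl rfl, h1, h2⟩
    · refine ⟨χ * om K, Or.inr rfl, h1, ?_⟩
      change Iso (quoRep ρ N hN) (chRep (χ * om K * om K))
      rw [mul_om_om]
      exact h2
  obtain ⟨ψ, hψ, h1, h2⟩ := key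
  obtain ⟨d, δ, hd, hδ, rfl, hiso⟩ := Pool.Agent.Helper69.RY.kummer_of
    Pool.Agent.Helper99.IS.hilbert90 ρ h3 hρ N hN ψ h1 h2
  rw [Pool.Agent.Helper69.RY.conjA_iso 3 hiso]
  exact hS _ (disc_ne (good0 hd hδ)) (has_E (good0 hd hδ) hψ)

theorem split_at_of_ext (hE : ExtAt K χ) : SplitAt K χ := by
  intro W hW hH
  obtain ⟨T, hs, hT, hi⟩ := hH
  have hc : Nat.card T = 3 := by
    rcases hi with ⟨e, -⟩ | ⟨e, -⟩ <;>
    rw [Nat.card_congr e.toEquiv, Nat.card_zmod]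
  obtain ⟨d, a, b, hG, -, h2, -, t, w, k, hf, hl⟩ := formW W hW T hs hT hc
  have hs' : ∀ g, ∀ x ∈ T.addSubgroupOf (tor3 W), torRep W g x ∈ T.addSubgroupOf (tor3 W) :=
    fun g x hx => hs g x hx
  apply hE (tor3 W) (torRep W) (T.addSubgroupOf (tor3 W)) hs'
    (fun x => Subtype.ext x.2) (Pool.Agent.Helper99.IS.cont_tor W)
  have h5 := hf.sub_iso (fun P => hl P) hs'
  have h6 := hf.quo_iso (fun P => hl P) hs'
  rw [qch_om hG.1] at h6
  rcases hi with hi | hi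
  · have e := chRep_inj (h2.symm.trans hi)
    rw [e] at h5 h6
    exact Or.inl ⟨h5, h6⟩
  · have e := chRep_inj (h2.symm.trans hi)
    rw [e] at h5 h6
    rw [mul_om_om] at h6
    exact Or.inr ⟨h5, h6⟩

theorem tfae_at (χ : GK K →* ℤˣ) :
    List.TFAE [IsogAt K χ, SplitAt K χ, ConstAt K χ, ExtAt K χ] := by
  tfae_have 1 → 2 := split_at
  tfae_have 2 → 3 := const_at
  tfae_have 3 → 1 := isog_at
  tfae_have 2 → 4 := ext_at
  tfae_have 4 → 2 := split_at_of_ext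
  tfae_finish

theorem isogInv_iff : IsogInv K ↔ ∀ χ : GK K →* ℤˣ, ConstAt K χ := by
  constructor
  · intro h χ
    have h1 : IsogAt K χ := fun W W' hW hW' _ _ hi => h W W' hW hW' hi
    exact const_at (split_at h1)
  · intro h
    apply Pool.Agent.Helper21.EC.inv_of_split
    intro W T hs hW hT hc
    obtain ⟨d, a, b, hG, -, h2, h3, -⟩ := formW W hW T hs hT hc
    have h4 : SplitAt K (qch d) := ((tfae_at (qch d)).out 2 1).1 (h (qch d))
    rw [h4 W hW ⟨T, hs, hT, Or.inl h2⟩, Pool.Agent.Helper69.RY.conjA_iso 3 h2,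
      Pool.Agent.Helper69.RY.conjA_iso 3 h3, qch_om hG.1]

end

end Pool.Agent.Helper58.IQ
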