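import Pool.Agent.Helper58.IQ.Stmt
import Pool.Agent.Helper58.IQ.Char

/-!
# The statements for one character

`χ` is a character of `Gal(Kb/K)` with values `1` and `-1`; `om K` is the cyclotomic character
mod 3, which is the quadratic (or trivial) character belonging to `K(√-3) = K(μ_3)`.
-/

open scoped NumberField

universe u

namespace Pool.Agent.Helper58.IQ

/-- The cyclotomic character mod 3: the character belonging to `K(√-3)`. -/
noncomputable def om (K : Type*) [Field K] [CharZero K] : GK K →* ℤˣ := qch (-3 : K)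

/-- `W[3]` has a submodule isomorphic to `F_3(χ)` or to `F_3(χω)`. -/
def Has {K : Type*} [Field K] [CharZero K] (χ : GK K →* ℤˣ) (W : WeierstrassCurve K) : Prop :=
  ∃ (T : AddSubgroup (Pts W)) (hs : Stab W T), T ≤ tor3 W ∧
    (Iso (lineRep W T hs) (chRep χ) ∨ Iso (lineRep W T hs) (chRep (χ * om K)))

/-- Isogeny invariance for the curves `W` such that `W[3]` contains `F_3(χ)` or `F_3(χω)`. -/
def IsogAt (K : Type*) [Field K] [CharZero K] (χ : GK K →* ℤˣ) : Prop :=
  ∀ W W' : WeierstrassCurve K, W.Δ ≠ 0 → W'.Δ ≠ 0 → Has χ W → Has χ W' → Isogenous W W' →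
    (ConjA 3 (torRep W) ↔ ConjA 3 (torRep W'))

/-- For the curves `W` such that `W[3]` contains `F_3(χ)` or `F_3(χω)`, Conjecture A for `W[3]`
is equivalent to Conjecture A for `F_3(χ)` and `F_3(χω)`. -/
def SplitAt (K : Type*) [Field K] [CharZero K] (χ : GK K →* ℤˣ) : Prop :=
  ∀ W : WeierstrassCurve K, W.Δ ≠ 0 → Has χ W →
    (ConjA 3 (torRep W) ↔ ConjA 3 (chRep χ) ∧ ConjA 3 (chRep (χ * om K)))

/-- Conjecture A holds for all or for none of the curves `W` such that `W[3]` contains `F_3(χ)`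
or `F_3(χω)`. -/
def ConstAt (K : Type*) [Field K] [CharZero K] (χ : GK K →* ℤˣ) : Prop :=
  ∀ W W' : WeierstrassCurve K, W.Δ ≠ 0 → W'.Δ ≠ 0 → Has χ W → Has χ W' →
    (ConjA 3 (torRep W) ↔ ConjA 3 (torRep W'))

/-- The module is continuous for the discrete topology: the stabilizers are open. -/
def Cont {K : Type*} [Field K] {M : Type*} [AddCommGroup M] (ρ : GK K →* AddMonoid.End M) :
    Prop := ∀ x : M, IsOpen {g : GK K | ρ g x = x}

/-- For every continuous module `M` killed by 3 with a submodule `N` such that `N` and `M / N`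
are `F_3(χ)` and `F_3(χω)`, in either order, Conjecture A for `M` is equivalent to Conjecture A
for `F_3(χ)` and `F_3(χω)`. -/
def ExtAt (K : Type u) [Field K] [CharZero K] (χ : GK K →* ℤˣ) : Prop :=
  ∀ (M : Type u) [AddCommGroup M] (ρ : GK K →* AddMonoid.End M) (N : AddSubgroup M)
    (hN : ∀ g, ∀ x ∈ N, ρ g x ∈ N), (∀ x : M, 3 • x = 0) → Cont ρ →
    ((Iso (subRep ρ N hN) (chRep χ) ∧ Iso (quoRep ρ N hN) (chRep (χ * om K))) ∨
      (Iso (subRep ρ N hN) (chRep (χ * om K)) ∧ Iso (quoRep ρ N hN) (chRep χ))) →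
    (ConjA 3 ρ ↔ ConjA 3 (chRep χ) ∧ ConjA 3 (chRep (χ * om K)))

end Pool.Agent.Helper58.IQ
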