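import Pool.Agent.Helper58.IQ.Curve

/-!
# Statements of the pieces (not imported by anything)
-/

open scoped NumberField
open WeierstrassCurve

namespace Pool.Agent.Helper58.IQ.Frame

/-! S3 (helper69) -/

theorem path {K : Type*} [Field K] [CharZero K] (Q : K → K → Prop)
    (hsq : ∀ d δ u c : K, d ≠ 0 → δ ≠ 0 → u ≠ 0 → c ≠ 0 → (Q d δ ↔ Q (d * u ^ 2) (δ * c ^ 3)))
    (hst : ∀ d δ a : K, d ≠ 0 → δ ≠ 0 → a ^ 3 ≠ δ → (Q d δ ↔ Q (-3 * d) (a ^ 3 - δ))) :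
    ∀ d δ : K, d ≠ 0 → δ ≠ 0 → (Q d δ ↔ Q d 1) := sorry

/-! S7 (helper69) -/

section S7

variable {G : Type*} [Group G] {A B : Type*} [AddCommGroup A] [AddCommGroup B]
  (ρ : G →* AddMonoid.End A) (σ : G →* AddMonoid.End B) (φ : A →+ B)

theorem devissage (hφ : Function.Surjective φ) (hker : Finite φ.ker)
    (he : ∀ g a, φ (ρ g a) = σ g (φ a)) (T : AddSubgroup A) (hT : ∀ P ∈ T, 3 • P = 0)
    (χ₁ χ₂ : G → ℤ) (h1 : ∀ g, ∀ P ∈ T, ρ g P = χ₁ g • P)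
    (h2 : ∀ g, ∀ P : A, 3 • P = 0 → ρ g P - χ₂ g • P ∈ T)
    (hB : ∃ Q : B, Q ≠ 0 ∧ 3 • Q = 0) :
    ∃ Q : B, Q ≠ 0 ∧ 3 • Q = 0 ∧
      ((∀ g, σ g Q = χ₁ g • Q) ∨ (∀ g, σ g Q = χ₂ g • Q)) := sorry

theorem iso_of_simple (hφ : Function.Surjective φ) (hker : Finite φ.ker)
    (he : ∀ g a, φ (ρ g a) = σ g (φ a))
    (hs : ∀ T : AddSubgroup A, (∀ P ∈ T, 3 • P = 0) → (∀ g, ∀ P ∈ T, ρ g P ∈ T) →
      T ≠ ⊥ → ∀ P : A, 3 • P = 0 → P ∈ T)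
    (hB : ∃ Q : B, Q ≠ 0 ∧ 3 • Q = 0)
    (hA' : ∀ g, ∀ P ∈ (nsmulAddMonoidHom 3 : A →+ A).ker, ρ g P ∈ (nsmulAddMonoidHom 3 : A →+ A).ker)
    (hB' : ∀ g, ∀ P ∈ (nsmulAddMonoidHom 3 : B →+ B).ker, σ g P ∈ (nsmulAddMonoidHom 3 : B →+ B).ker) :
    Iso (subRep ρ (nsmulAddMonoidHom 3 : A →+ A).ker hA')
      (subRep σ (nsmulAddMonoidHom 3 : B →+ B).ker hB') := sorry

end S7

/-! S5 (helper99) -/

theorem isogeny {K : Type*} [Field K] [CharZero K] (d a b : K) (h : Good d a b) :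
    Isogenous (E d a b) (E (-3 * d) a ((27 * b - 4 * a ^ 3 * d) / 9)) := sorry

/-! S6 (helper21) -/

theorem family {K : Type*} [Field K] [CharZero K] (W : WeierstrassCurve K) (hW : W.Δ ≠ 0)
    (T : AddSubgroup (Pts W)) (hT : T ≤ tor3 W) (hs : Stab W T) (hc : Nat.card T = 3) :
    ∃ d a b : K, Good d a b ∧ ∃ e : Pts W ≃+ Pts (E d a b),
      (∀ g P, e (ptsRep W g P) = ptsRep (E d a b) g (e P)) ∧
      ∀ P, P ∈ T ↔ (e P = 0 ∨ ∃ y h, e P = Affine.Point.some 0 y h) := sorry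

theorem card_tor3 {K : Type*} [Field K] [CharZero K] (W : WeierstrassCurve K) (hW : W.Δ ≠ 0) :
    Nat.card (tor3 W) = 9 := sorry

/-! S1 (helper58) -/

/-- The point `(x, y)` of `W` (`0` if it is not a nonsingular point). -/
noncomputable def pt {F : Type*} [Field F] (W : WeierstrassCurve F) (x y : F) :
    W.toAffine.Point :=
  open scoped Classical in
  if h : W.toAffine.Nonsingular x y then Affine.Point.some x y h else 0

end Pool.Agent.Helper58.IQ.Frame
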