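import Pool.Agent.Helper58.IQ.Char

/-!
# Statements of the pieces S4 (not imported by anything)
-/

open scoped NumberField

namespace Pool.Agent.Helper58.IQ.Frame2

/-! S4a, S4b (helper3) -/

theorem conjA_iso {K : Type*} [Field K] (p : ℕ) [Fact p.Prime] {M N : Type*} [AddCommGroup M]
    [AddCommGroup N] {ρ : GK K →* AddMonoid.End M} {σ : GK K →* AddMonoid.End N}
    (h : Iso ρ σ) : ConjA p ρ ↔ ConjA p σ := sorry

theorem conjA_prod {K : Type*} [Field K] (p : ℕ) [Fact p.Prime] {M N : Type*} [AddCommGroup M]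
    [AddCommGroup N] (ρ : GK K →* AddMonoid.End M) (σ : GK K →* AddMonoid.End N)
    (h : ∀ P : Ideal (𝓞 (Kb K)), P.IsPrime → P ≠ ⊥ → (p : 𝓞 (Kb K)) ∉ P →
      ((∀ g ∈ inert P, ρ g = 1) ↔ (∀ g ∈ inert P, σ g = 1))) :
    ConjA p (prodRep ρ σ) ↔ ConjA p ρ ∧ ConjA p σ := sorry

/-! S4c (helper98) -/

theorem ram_twist {K : Type*} [Field K] [CharZero K] (d : K) (P : Ideal (𝓞 (Kb K)))
    (hP : P.IsPrime) (h3 : ((3 : ℕ) : 𝓞 (Kb K)) ∉ P) :
    (∀ g ∈ inert P, chRep (qch d) g = 1) ↔ (∀ g ∈ inert P, chRep (qch (-3 * d)) g = 1) := sorry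

end Pool.Agent.Helper58.IQ.Frame2
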