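import Pool.Agent.Helper58.IQ.S2c

/-!
# Statements of the pieces KU1, KU2 (not imported by anything)
-/

open scoped NumberField
open WeierstrassCurve

namespace Pool.Agent.Helper58.IQ

/-- The module is continuous (discrete): all stabilizers are open. -/
def Cont {K : Type*} [Field K] {M : Type*} [AddCommGroup M] (ρ : GK K →* AddMonoid.End M) :
    Prop := ∀ x : M, IsOpen {g : GK K | ρ g x = x}

namespace Frame3

/-! KU1 (helper99) -/

theorem hilbert90 {K : Type*} [Field K] [CharZero K] (c : GK K → Kb K)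
    (hc : ∀ g h, c (g * h) = c g * g (c h)) (h0 : ∀ g, c g ≠ 0) (hl : IsLocallyConstant c) :
    ∃ r : Kb K, r ≠ 0 ∧ ∀ g : GK K, g r = c g * r := sorry

/-! KU2 (helper69) -/

theorem kummer {K : Type*} [Field K] [CharZero K] {M : Type*} [AddCommGroup M]
    (ρ : GK K →* AddMonoid.End M) (h3 : ∀ x : M, 3 • x = 0) (hρ : Cont ρ)
    (N : AddSubgroup M) (hN : ∀ g, ∀ x ∈ N, ρ g x ∈ N) (χ : GK K →* ℤˣ)
    (h1 : Iso (subRep ρ N hN) (chRep χ)) (h2 : Iso (quoRep ρ N hN) (chRep (χ * qch (-3 : K)))) :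
    ∃ d δ : K, d ≠ 0 ∧ δ ≠ 0 ∧ χ = qch d ∧ Iso ρ (torRep (E d 0 (b0 d δ))) := sorry

/-! KU3 (helper99 or helper69) -/

theorem cont_tor {K : Type*} [Field K] [CharZero K] (W : WeierstrassCurve K) :
    Cont (torRep W) := sorry

end Frame3

end Pool.Agent.Helper58.IQ
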