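import Pool.Agent.Helper58.IQ.Char

/-!
# Modules of order 9 with a basis t, w
-/

namespace Pool.Agent.Helper58.IQ

/-- `t`, `w` is a basis of `M` over the field with three elements, `g t = χ₁(g) t` and
`g w = χ₂(g) (w - k(g) t)`. -/
structure Form {G : Type*} [Group G] {M : Type*} [AddCommGroup M] (ρ : G →* AddMonoid.End M)
    (t w : M) (χ₁ χ₂ : G →* ℤˣ) (k : G → ℤ) : Prop where
  t3 : 3 • t = 0
  w3 : 3 • w = 0
  span : ∀ P, ∃ m n : ℤ, P = m • t + n • w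
  ind : ∀ m n : ℤ, m • t + n • w = 0 → (3 : ℤ) ∣ m ∧ (3 : ℤ) ∣ n
  gt : ∀ g, ρ g t = ((χ₁ g : ℤˣ) : ℤ) • t
  gw : ∀ g, ρ g w = ((χ₂ g : ℤˣ) : ℤ) • (w - k g • t)

section

variable {G : Type*} [Group G] {M N : Type*} [AddCommGroup M] [AddCommGroup N]
  {ρ : G →* AddMonoid.End M} {σ : G →* AddMonoid.End N} {t w : M} {t' w' : N}
  {χ₁ χ₂ : G →* ℤˣ} {k : G → ℤ}

/-- The homomorphism `(m, n) ↦ m t + n w`. -/
def ff2 (t w : M) : ℤ × ℤ →+ M where
  toFun x := x.1 • t + x.2 • w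
  map_zero' := by simp
  map_add' x y := by
    simp only [Prod.fst_add, Prod.snd_add, add_zsmul]
    abel

theorem dvd3 {t : M} (h : 3 • t = 0) {m : ℤ} (hm : (3 : ℤ) ∣ m) : m • t = 0 := by
  obtain ⟨c, rfl⟩ := hm
  have h' : (3 : ℤ) • t = 0 := by
    rw [← h]
    norm_cast
  rw [mul_comm, mul_zsmul, h', smul_zero]

theorem Form.mem_ker (h : Form ρ t w χ₁ χ₂ k) (x : ℤ × ℤ) :
    x ∈ (ff2 t w).ker ↔ (3 : ℤ) ∣ x.1 ∧ (3 : ℤ) ∣ x.2 := by
  constructor
  · intro hx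
    exact h.ind x.1 x.2 hx
  · rintro ⟨h1, h2⟩
    change x.1 • t + x.2 • w = 0
    rw [dvd3 h.t3 h1, dvd3 h.w3 h2, add_zero]

theorem Form.surj (h : Form ρ t w χ₁ χ₂ k) : Function.Surjective (ff2 t w) := by
  intro P
  obtain ⟨m, n, e⟩ := h.span P
  exact ⟨(m, n), e.symm⟩

theorem Form.act (h : Form ρ t w χ₁ χ₂ k) (g : G) (x : ℤ × ℤ) :
    ρ g (ff2 t w x) = ff2 t w
      (x.1 * ((χ₁ g : ℤˣ) : ℤ) - x.2 * ((χ₂ g : ℤˣ) : ℤ) * k g, x.2 * ((χ₂ g : ℤˣ) : ℤ)) := by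
  change ρ g (x.1 • t + x.2 • w) = _ • t + _ • w
  rw [map_add, map_zsmul, map_zsmul, h.gt, h.gw]
  simp only [sub_zsmul, mul_zsmul, smul_sub]
  abel_nf

theorem Form.iso (h : Form ρ t w χ₁ χ₂ k) (h' : Form σ t' w' χ₁ χ₂ k) : Iso ρ σ := by
  have hk : (ff2 t w).ker = (ff2 t' w').ker := by
    ext x
    rw [h.mem_ker, h'.mem_ker]
  let e₁ := QuotientAddGroup.quotientKerEquivOfSurjective (ff2 t w) h.surj
  let e₂ := QuotientAddGroup.quotientKerEquivOfSurjective (ff2 t' w') h'.surj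
  let e₀ := QuotientAddGroup.quotientAddEquivOfEq hk
  have key : ∀ x : ℤ × ℤ, (e₁.symm.trans (e₀.trans e₂)) (ff2 t w x) = ff2 t' w' x := by
    intro x
    have : e₁.symm (ff2 t w x) = QuotientAddGroup.mk x := by
      rw [AddEquiv.symm_apply_eq]
      rfl
    change e₂ (e₀ (e₁.symm (ff2 t w x))) = _
    rw [this]
    rfl
  refine ⟨e₁.symm.trans (e₀.trans e₂), fun g P => ?_⟩
  obtain ⟨x, rfl⟩ := h.surj P
  rw [h.act, key, key, h'.act]

/-- A cyclic module of order 3. -/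
theorem cyc_iso {a : M} (hgen : ∀ P : M, ∃ m : ℤ, P = m • a) (h3 : 3 • a = 0) (hne : a ≠ 0)
    (hact : ∀ g, ρ g a = ((χ₁ g : ℤˣ) : ℤ) • a) : Iso ρ (chRep χ₁) := by
  have h3' : (zmultiplesHom M a) ((3 : ℕ) : ℤ) = 0 := by
    rw [zmultiplesHom_apply]
    exact dvd3 h3 (by norm_num)
  let f : ZMod 3 →+ M := ZMod.lift 3 ⟨zmultiplesHom M a, h3'⟩
  have hf : ∀ m : ℤ, f (m : ZMod 3) = m • a := by
    intro m
    change ZMod.lift 3 ⟨zmultiplesHom M a, h3'⟩ (m : ZMod 3) = m • a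
    rw [ZMod.lift_coe]
    rfl
  have hf1 : f 1 = a := by
    have := hf 1
    rw [Int.cast_one, one_zsmul] at this
    exact this
  have hinj : Function.Injective f := by
    rw [injective_iff_map_eq_zero]
    intro x hx
    fin_cases x
    · rfl
    · exfalso
      exact hne (by rw [← hf1]; exact hx)
    · exfalso
      apply hne
      have h2 : f (((2 : ℤ)) : ZMod 3) = 0 := hx
      rw [hf] at h2
      have h33 : (3 : ℤ) • a = 0 := dvd3 h3 (by norm_num)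
      have : (3 : ℤ) • a = (2 : ℤ) • a + a := by
        rw [show (3 : ℤ) = 2 + 1 by norm_num, add_zsmul, one_zsmul]
      rw [h33, h2, zero_add] at this
      exact this.symm
  have hsurj : Function.Surjective f := by
    intro P
    obtain ⟨m, e⟩ := hgen P
    exact ⟨(m : ZMod 3), by rw [hf, e]⟩
  let e := AddEquiv.ofBijective f ⟨hinj, hsurj⟩
  have he : ∀ x, e x = f x := fun x => rfl
  refine ⟨e.symm, fun g P => ?_⟩
  rw [AddEquiv.symm_apply_eq, he]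
  obtain ⟨m, rfl⟩ := hgen P
  have h1 : e.symm (m • a) = (m : ZMod 3) := by
    rw [AddEquiv.symm_apply_eq, he, hf]
  rw [h1, chRep_apply, map_zsmul, hact, map_zsmul, hf, smul_comm]

/-- Transport of a form. -/
theorem Form.map (h : Form ρ t w χ₁ χ₂ k) (e : M ≃+ N)
    (he : ∀ g m, e (ρ g m) = σ g (e m)) : Form σ (e t) (e w) χ₁ χ₂ k where
  t3 := by rw [← map_nsmul, h.t3, map_zero]
  w3 := by rw [← map_nsmul, h.w3, map_zero]
  span P := by
    obtain ⟨m, n, hP⟩ := h.span (e.symm P)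
    refine ⟨m, n, ?_⟩
    rw [AddEquiv.symm_apply_eq, map_add, map_zsmul, map_zsmul] at hP
    exact hP
  ind m n hmn := by
    rw [← map_zsmul, ← map_zsmul, ← map_add] at hmn
    exact h.ind m n (e.injective (by rw [hmn, map_zero]))
  gt g := by rw [← he, h.gt, map_zsmul]
  gw g := by rw [← he, h.gw, map_zsmul, map_sub, map_zsmul]

theorem Form.t_ne (h : Form ρ t w χ₁ χ₂ k) : t ≠ 0 := by
  intro h0
  have := (h.ind 1 0 (by rw [h0]; simp)).1
  norm_num at this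

/-- The submodule of the multiples of `t`. -/
theorem Form.sub_iso (h : Form ρ t w χ₁ χ₂ k) {T : AddSubgroup M}
    (hT : ∀ P, P ∈ T ↔ ∃ m : ℤ, P = m • t) (hs : ∀ g, ∀ x ∈ T, ρ g x ∈ T) :
    Iso (subRep ρ T hs) (chRep χ₁) := by
  have ht : t ∈ T := (hT t).2 ⟨1, (one_zsmul t).symm⟩
  refine cyc_iso (a := (⟨t, ht⟩ : T)) ?_ ?_ ?_ ?_
  · rintro ⟨P, hP⟩
    obtain ⟨m, e⟩ := (hT P).1 hP
    exact ⟨m, Subtype.ext e⟩
  · exact Subtype.ext h.t3
  · intro h0
    exact h.t_ne (congrArg Subtype.val h0)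
  · intro g
    exact Subtype.ext (h.gt g)

/-- The quotient by the multiples of `t`. -/
theorem Form.quo_iso (h : Form ρ t w χ₁ χ₂ k) {T : AddSubgroup M}
    (hT : ∀ P, P ∈ T ↔ ∃ m : ℤ, P = m • t) (hs : ∀ g, ∀ x ∈ T, ρ g x ∈ T) :
    Iso (quoRep ρ T hs) (chRep χ₂) := by
  have ht : ∀ m : ℤ, (QuotientAddGroup.mk (m • t) : M ⧸ T) = 0 := by
    intro m
    rw [QuotientAddGroup.eq_zero_iff]
    exact (hT _).2 ⟨m, rfl⟩
  refine cyc_iso (a := (QuotientAddGroup.mk w : M ⧸ T)) ?_ ?_ ?_ ?_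
  · intro P
    induction P using QuotientAddGroup.induction_on with
    | H P =>
      obtain ⟨m, n, e⟩ := h.span P
      refine ⟨n, ?_⟩
      rw [e, QuotientAddGroup.mk_add, ht, zero_add]
      rfl
  · have : (QuotientAddGroup.mk (3 • w) : M ⧸ T) = 0 := by
      rw [h.w3]
      rfl
    exact this
  · intro h0
    rw [QuotientAddGroup.eq_zero_iff, hT] at h0
    obtain ⟨m, e⟩ := h0
    have := (h.ind m (-1) (by rw [e]; simp)).2
    norm_num at this
  · intro g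
    change QuotientAddGroup.mk (ρ g w) = _
    rw [h.gw, smul_sub, smul_smul, QuotientAddGroup.mk_sub, ht, sub_zero]
    rfl

/-- The split form. -/
theorem form_prod (χ₁ χ₂ : G →* ℤˣ) :
    Form (prodRep (chRep χ₁) (chRep χ₂)) ((1, 0) : ZMod 3 × ZMod 3) (0, 1) χ₁ χ₂
      (fun _ => 0) where
  t3 := by decide
  w3 := by decide
  span P := by
    refine ⟨(P.1.val : ℤ), (P.2.val : ℤ), ?_⟩
    ext <;> simp
  ind m n hmn := by
    have h1 := congrArg Prod.fst hmn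
    have h2 := congrArg Prod.snd hmn
    simp only [Prod.smul_mk, smul_zero, Prod.mk_add_mk, add_zero, zero_add, Prod.fst_zero,
      Prod.snd_zero, zsmul_one] at h1 h2
    exact ⟨(ZMod.intCast_zmod_eq_zero_iff_dvd m 3).1 h1,
      (ZMod.intCast_zmod_eq_zero_iff_dvd n 3).1 h2⟩
  gt g := by
    rw [prodRep_apply, chRep_apply, chRep_apply]
    simp
  gw g := by
    rw [prodRep_apply, chRep_apply, chRep_apply]
    simp

end

end Pool.Agent.Helper58.IQ
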