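import Pool.Agent.Helper58.IQ.S1
import Pool.Agent.Helper58.IQ.S2a
import Pool.Agent.Helper58.IQ.Curve

/-!
# The Galois module of the 3-torsion points of y² = x³ + d (a x + b)²
-/

open scoped NumberField
open WeierstrassCurve

namespace Pool.Agent.Helper58.IQ

variable {K : Type*} [Field K] [CharZero K]

theorem am_nat (n : ℕ) [n.AtLeastTwo] :
    algebraMap K (Kb K) (OfNat.ofNat n) = OfNat.ofNat n := map_ofNat _ n

/-- The base change of `E d a b`. -/
theorem isE_base (d a b : K) :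
    IsE (Affine.baseChange (E d a b) (Kb K)) (algebraMap K (Kb K) d) (algebraMap K (Kb K) a)
      (algebraMap K (Kb K) b) where
  h1 := by
    change algebraMap K (Kb K) 0 = 0
    rw [map_zero]
  h2 := by
    change algebraMap K (Kb K) (d * a ^ 2) = _
    simp
  h3 := by
    change algebraMap K (Kb K) 0 = 0
    rw [map_zero]
  h4 := by
    change algebraMap K (Kb K) (2 * d * a * b) = _
    rw [map_mul, map_mul, map_mul, am_nat]
  h6 := by
    change algebraMap K (Kb K) (d * b ^ 2) = _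
    simp

/-- The Galois action on the points `pt W x y`. -/
theorem rep_pt (W : WeierstrassCurve K) (g : GK K) {x y : Kb K}
    (h : (Affine.baseChange W (Kb K)).Nonsingular x y) :
    ptsRep W g (pt (Affine.baseChange W (Kb K)) x y) =
      pt (Affine.baseChange W (Kb K)) (g x) (g y) := by
  have h' : (Affine.baseChange W (Kb K)).Nonsingular (g x) (g y) :=
    (Affine.baseChange_nonsingular (W := W) (f := (g : Kb K →ₐ[K] Kb K)) (AlgEquiv.injective g) ..).2 h
  rw [pt_of h, pt_of h']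
  rfl

/-- A primitive cube root of unity in `Kb`. -/
noncomputable def zet (K : Type*) [Field K] [CharZero K] : Kb K := (sqr (-3 : K) - 1) / 2

theorem zet_eq : 2 * zet K + 1 = sqr (-3 : K) := by
  rw [zet]
  ring

theorem zet_root : zet K ^ 2 + zet K + 1 = 0 := by
  have h := sqr_sq (-3 : K)
  have e : algebraMap K (Kb K) (-3 : K) = -3 := by rw [map_neg, am_nat]
  rw [e] at h
  rw [zet]
  linear_combination (1 / 4 : Kb K) * h

/-- The invariant `δ` of `E d a b`. -/
def del (d a b : K) : K := a ^ 3 - 27 * b / (4 * d)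

theorem rts_of {d a b : K} (h : Good d a b) {r θ : Kb K} (hr : r ^ 2 = algebraMap K (Kb K) d)
    (hθ : θ ^ 3 = algebraMap K (Kb K) (del d a b)) :
    Rts (algebraMap K (Kb K) d) (algebraMap K (Kb K) a) (algebraMap K (Kb K) b) r (zet K) θ where
  hd := by
    rw [Ne, map_eq_zero]
    exact h.1
  hb := by
    rw [Ne, map_eq_zero]
    exact h.2.1
  hr := hr
  hz := zet_root
  ht := by
    rw [hθ, del]
    have e : 27 * b = 4 * d * (a ^ 3 - (a ^ 3 - 27 * b / (4 * d))) := by
      have := h.1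
      field_simp
      ring
    have := congrArg (algebraMap K (Kb K)) e
    rw [map_mul, map_mul, map_mul, am_nat, am_nat, map_sub, map_pow] at this
    exact this
  ht0 := by
    rintro rfl
    have h0 : algebraMap K (Kb K) (del d a b) = 0 := by
      rw [← hθ]
      ring
    rw [map_eq_zero, del] at h0
    apply h.2.2
    have := h.1
    field_simp at h0
    linear_combination h0

/-- The exponent `k` with `g θ = ζ^k θ`. -/
noncomputable def kk (θ : Kb K) (g : GK K) : ℤ :=
  open scoped Classical in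
  if g θ = θ then 0 else if g θ = zet K * θ then 1 else 2

theorem kk_mul {θ : Kb K} {c : K} (hc : c ≠ 0) (g : GK K) :
    kk (algebraMap K (Kb K) c * θ) g = kk θ g := by
  have hc' : algebraMap K (Kb K) c ≠ 0 := by
    rw [Ne, map_eq_zero]
    exact hc
  have e1 : g (algebraMap K (Kb K) c * θ) = algebraMap K (Kb K) c * θ ↔ g θ = θ := by
    rw [map_mul, AlgEquiv.commutes]
    exact mul_right_inj' hc'
  have e2 : g (algebraMap K (Kb K) c * θ) = zet K * (algebraMap K (Kb K) c * θ) ↔
      g θ = zet K * θ := by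
    rw [map_mul, AlgEquiv.commutes,
      show zet K * (algebraMap K (Kb K) c * θ) = algebraMap K (Kb K) c * (zet K * θ) by ring]
    exact mul_right_inj' hc'
  unfold kk
  simp only [e1, e2]

theorem kk_cases {d a b : K} {r θ : Kb K}
    (h : Rts (algebraMap K (Kb K) d) (algebraMap K (Kb K) a) (algebraMap K (Kb K) b) r (zet K) θ)
    {δ : K} (hθ : θ ^ 3 = algebraMap K (Kb K) δ) (g : GK K) :
    (kk θ g = 0 ∧ g θ = θ) ∨ (kk θ g = 1 ∧ g θ = zet K * θ) ∨
      (kk θ g = 2 ∧ g θ = zet K * (zet K * θ)) := by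
  unfold kk
  by_cases h1 : g θ = θ
  · left
    exact ⟨if_pos h1, h1⟩
  · right
    by_cases h2 : g θ = zet K * θ
    · left
      rw [if_neg h1, if_pos h2]
      exact ⟨rfl, h2⟩
    · right
      rw [if_neg h1, if_neg h2]
      refine ⟨rfl, ?_⟩
      have h3 : (g θ) ^ 3 = θ ^ 3 := by
        rw [← map_pow, hθ, AlgEquiv.commutes]
      have hz := zet_root (K := K)
      have : (g θ - θ) * ((g θ - zet K * θ) * (g θ - zet K * (zet K * θ))) = 0 := by
        linear_combination h3 + (-(g θ) ^ 2 * θ + g θ * θ ^ 2 * zet K - θ ^ 3 * (zet K - 1)) * hz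
      rcases mul_eq_zero.1 this with h4 | h4
      · exact absurd (sub_eq_zero.1 h4) h1
      · rcases mul_eq_zero.1 h4 with h5 | h5
        · exact absurd (sub_eq_zero.1 h5) h2
        · exact sub_eq_zero.1 h5

theorem pt_neg {F : Type*} [Field F] [DecidableEq F] {W : Affine F} (h1 : W.a₁ = 0)
    (h3 : W.a₃ = 0) {x y : F} (h : W.Nonsingular x y) : pt W x (-y) = -pt W x y := by
  obtain ⟨h', e⟩ := neg_pt h1 h3 h
  rw [pt_of h, pt_of h', e]

theorem pt_sign {F : Type*} [Field F] [DecidableEq F] {W : Affine F} (h1 : W.a₁ = 0)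
    (h3 : W.a₃ = 0) {x y : F} (h : W.Nonsingular x y) (u : ℤˣ) :
    pt W x ((u : ℤ) • y) = (u : ℤ) • pt W x y := by
  rcases Int.units_eq_one_or u with hu | hu
  · rw [hu]
    simp
  · rw [hu]
    simp only [Units.val_neg, Units.val_one, neg_zsmul, one_zsmul]
    exact pt_neg h1 h3 h

theorem gal_xx (g : GK K) (d a : K) (θ : Kb K) :
    g (xx (algebraMap K (Kb K) d) (algebraMap K (Kb K) a) θ) =
      xx (algebraMap K (Kb K) d) (algebraMap K (Kb K) a) (g θ) := by
  simp only [xx, map_mul, map_add, map_neg, map_div₀, map_pow, AlgEquiv.commutes, map_ofNat]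

theorem gal_yy (g : GK K) (d a : K) {r θ : Kb K} (hr : r ^ 2 = algebraMap K (Kb K) d) :
    g (yy (algebraMap K (Kb K) d) (algebraMap K (Kb K) a) r (zet K) θ) =
      ((qch (-3 * d) g : ℤˣ) : ℤ) •
        yy (algebraMap K (Kb K) d) (algebraMap K (Kb K) a) r (zet K) (g θ) := by
  have hs : ((2 * zet K + 1) * r) ^ 2 = algebraMap K (Kb K) (-3 * d) := by
    rw [mul_pow, hr, map_mul, map_neg, am_nat]
    have hz := zet_root (K := K)
    linear_combination (4 * algebraMap K (Kb K) d) * hz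
  have hg := qch_spec (-3 * d) g hs
  have e : yy (algebraMap K (Kb K) d) (algebraMap K (Kb K) a) r (zet K) θ =
      ((2 * zet K + 1) * r) * (θ * xx (algebraMap K (Kb K) d) (algebraMap K (Kb K) a) θ / 3) := by
    rw [yy]
    ring
  have e' : yy (algebraMap K (Kb K) d) (algebraMap K (Kb K) a) r (zet K) (g θ) =
      ((2 * zet K + 1) * r) *
        (g θ * xx (algebraMap K (Kb K) d) (algebraMap K (Kb K) a) (g θ) / 3) := by
    rw [yy]
    ring
  rw [e, e', map_mul, hg, map_div₀, map_mul, gal_xx, map_ofNat, smul_mul_assoc]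

/-- The Galois module `E[3]`. -/
theorem form_E {d a b : K} (h : Good d a b) {θ : Kb K}
    (hθ : θ ^ 3 = algebraMap K (Kb K) (del d a b)) :
    ∃ t w : tor3 (E d a b), Form (torRep (E d a b)) t w (qch d) (qch (-3 * d)) (kk θ) ∧
      ∀ P : tor3 (E d a b), (∃ m : ℤ, P = m • t) ↔
        ((P : Pts (E d a b)) = 0 ∨ ∃ y hy, (P : Pts (E d a b)) = Affine.Point.some 0 y hy) := by
  have hW := isE_base d a b
  have hR := rts_of h (sqr_sq d) hθ
  let t : tor3 (E d a b) := ⟨_, tors_t hW hR⟩
  let w : tor3 (E d a b) := ⟨_, tors_w hW hR⟩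
  have hT : ∀ m n : ℤ, ((m • t + n • w : tor3 (E d a b)) : Pts (E d a b)) =
      m • (t : Pts (E d a b)) + n • (w : Pts (E d a b)) := fun m n => rfl
  refine ⟨t, w, ⟨?_, ?_, ?_, ?_, ?_, ?_⟩, ?_⟩
  · exact Subtype.ext (tors_t hW hR)
  · exact Subtype.ext (tors_w hW hR)
  · rintro ⟨P, hP⟩
    obtain ⟨m, n, e⟩ := span3 hW hR P hP
    exact ⟨m, n, Subtype.ext e⟩
  · intro m n hmn
    exact indep3 hW hR m n (congrArg Subtype.val hmn)
  · intro g
    apply Subtype.ext
    change ptsRep (E d a b) g (pt _ 0 (algebraMap K (Kb K) b * sqr d)) =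
      ((qch d g : ℤˣ) : ℤ) • (pt _ 0 (algebraMap K (Kb K) b * sqr d))
    rw [rep_pt _ _ (nsT hW hR), map_zero, map_mul, AlgEquiv.commutes, qch_sqr, mul_smul_comm]
    exact pt_sign hW.h1 hW.h3 (nsT hW hR) _
  · intro g
    apply Subtype.ext
    change ptsRep (E d a b) g (pt _ (xx _ _ θ) (yy _ _ (sqr d) (zet K) θ)) =
      ((qch (-3 * d) g : ℤˣ) : ℤ) • ((pt _ (xx _ _ θ) (yy _ _ (sqr d) (zet K) θ)) -
        kk θ g • (pt _ 0 (algebraMap K (Kb K) b * sqr d)))
    rw [rep_pt _ _ (nsW hW hR), gal_xx, gal_yy g d a (sqr_sq d)]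
    have hcase := kk_cases hR hθ g
    rcases hcase with ⟨hk, hg⟩ | ⟨hk, hg⟩ | ⟨hk, hg⟩
    · rw [hk, hg, pt_sign hW.h1 hW.h3 (nsW hW hR)]
      simp
    · rw [hk, hg, pt_sign hW.h1 hW.h3 (nsW hW hR.next), w_next hW hR]
      simp
    · rw [hk, hg, pt_sign hW.h1 hW.h3 (nsW hW hR.next.next), w_next hW hR.next,
        w_next hW hR]
      congr 1
      rw [two_zsmul]
      abel
  · rintro ⟨P, hP⟩
    have hTt : (t : Pts (E d a b)) = Affine.Point.some 0 _ (nsT hW hR) := pt_of (nsT hW hR)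
    constructor
    · rintro ⟨m, e⟩
      have e' : P = m • (t : Pts (E d a b)) := congrArg Subtype.val e
      change P = 0 ∨ ∃ y hy, P = Affine.Point.some 0 y hy
      rcases zs3 (show 3 • (t : Pts (E d a b)) = 0 from tors_t hW hR) m with
        ⟨-, h1⟩ | ⟨-, h1⟩ | ⟨-, h1⟩
      · left
        rw [e', h1]
      · right
        rw [e', h1]
        exact ⟨_, _, hTt⟩
      · right
        rw [e', h1, hTt]
        obtain ⟨h', e2⟩ := neg_pt hW.h1 hW.h3 (nsT hW hR)
        exact ⟨_, h', e2⟩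
    · rintro (h0 | ⟨y, hy, e⟩)
      · exact ⟨0, Subtype.ext (by rw [zero_zsmul]; exact h0)⟩
      · have := (Affine.Point.X_eq_iff (h₁ := hy) (h₂ := nsT hW hR)).1 rfl
        rw [← hTt] at this
        rcases this with e2 | e2
        · exact ⟨1, Subtype.ext (by rw [one_zsmul]; exact e.trans e2)⟩
        · exact ⟨-1, Subtype.ext (by rw [neg_one_zsmul]; exact e.trans e2)⟩

end Pool.Agent.Helper58.IQ
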