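import Pool.Agent.Helper58.IQ.FormW
import Pool.Agent.Helper69.RY.Dev
import Pool.Agent.Helper69.RY.ConjA
import Pool.Agent.Helper99.IS.OverK
import Pool.Agent.Helper99.IS.RamTwist

/-!
# Isogeny invariance implies the split form
-/

open scoped NumberField
open WeierstrassCurve

namespace Pool.Agent.Helper58.IQ

variable {K : Type*} [Field K] [CharZero K]

/-- Conjecture A for the curve with invariants `d`, `δ`. -/
def QQ (d δ : K) : Prop := ConjA 3 (torRep (E d 0 (b0 d δ)))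

theorem QQ_of_E {d a b : K} (h : Good d a b) (hδ : del d a b ≠ 0) :
    ConjA 3 (torRep (E d a b)) ↔ QQ d (del d a b) := by
  apply Pool.Agent.Helper69.RY.conjA_iso
  apply E_iso h (good0 h.1 hδ) (u := 1) (c := 1) one_ne_zero one_ne_zero
  · ring
  · rw [del0 h.1]
    ring

theorem del_ne {d a b : K} (h : Good d a b) : del d a b ≠ 0 := by
  intro h0
  apply h.2.2
  have hd := h.1
  unfold del at h0
  field_simp at h0
  linear_combination h0

theorem QQ_sq {d δ u c : K} (hd : d ≠ 0) (hδ : δ ≠ 0) (hu : u ≠ 0) (hc : c ≠ 0) :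
    QQ d δ ↔ QQ (d * u ^ 2) (δ * c ^ 3) := by
  apply Pool.Agent.Helper69.RY.conjA_iso
  have hd' : d * u ^ 2 ≠ 0 := mul_ne_zero hd (pow_ne_zero 2 hu)
  have hδ' : δ * c ^ 3 ≠ 0 := mul_ne_zero hδ (pow_ne_zero 3 hc)
  apply E_iso (good0 hd hδ) (good0 hd' hδ') hu hc rfl
  rw [del0 hd, del0 hd']

/-- The discriminant of `E d a b`. -/
theorem disc_ne {d a b : K} (h : Good d a b) : (E d a b).Δ ≠ 0 := by
  rw [Pool.Agent.Helper99.IS.delta_E]
  have h3 : 4 * a ^ 3 * d - 27 * b ≠ 0 := sub_ne_zero.2 h.2.2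
  exact mul_ne_zero (mul_ne_zero (mul_ne_zero (by norm_num) (pow_ne_zero 2 h.1))
    (pow_ne_zero 3 h.2.1)) h3

theorem QQ_step (hI : IsogInv K) {d δ a : K} (hd : d ≠ 0) (hδ : δ ≠ 0) (ha : a ^ 3 ≠ δ) :
    QQ d δ ↔ QQ (-3 * d) (a ^ 3 - δ) := by
  have hG := good1 hd hδ ha
  have hG' := good_dual hG
  have h1 : ConjA 3 (torRep (E d a (b1 d a δ))) ↔ QQ d δ := by
    have := QQ_of_E hG (by rw [del1 hd]; exact hδ)
    rwa [del1 hd] at this
  have h2 := QQ_of_E hG' (by rw [del_dual hG, del1 hd]; exact sub_ne_zero.2 ha)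
  rw [del_dual hG, del1 hd] at h2
  rw [← h1, ← h2]
  exact hI _ _ (disc_ne hG) (disc_ne hG') (Pool.Agent.Helper99.IS.isogeny d a _ hG)

theorem QQ_one {d : K} (hd : d ≠ 0) :
    QQ d 1 ↔ ConjA 3 (chRep (qch d)) ∧ ConjA 3 (chRep (qch (-3 * d))) := by
  have h1 : QQ d 1 ↔ ConjA 3 (prodRep (chRep (qch d)) (chRep (qch (-3 * d)))) := by
    apply Pool.Agent.Helper69.RY.conjA_iso
    apply E_split (good0 hd one_ne_zero) (c := 1)
    rw [del0 hd]
    ring
  rw [h1]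
  apply Pool.Agent.Helper69.RY.conjA_prod
  intro P hP _ h3
  exact Pool.Agent.Helper99.IS.ram_twist d P hP h3

theorem split_of_QQ (W : WeierstrassCurve K) (T : AddSubgroup (Pts W)) (hs : Stab W T)
    (hW : W.Δ ≠ 0) (hT : T ≤ tor3 W) (hc : Nat.card T = 3)
    (h : ∀ d δ : K, d ≠ 0 → δ ≠ 0 → (QQ d δ ↔ QQ d 1)) :
    ConjA 3 (torRep W) ↔ ConjA 3 (lineRep W T hs) ∧ ConjA 3 (quotRep W T hs) := by
  obtain ⟨d, a, b, hG, h1, h2, h3, -⟩ := formW W hW T hs hT hc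
  rw [Pool.Agent.Helper69.RY.conjA_iso 3 h1, Pool.Agent.Helper69.RY.conjA_iso 3 h2,
    Pool.Agent.Helper69.RY.conjA_iso 3 h3, QQ_of_E hG (del_ne hG), h d _ hG.1 (del_ne hG)]
  exact QQ_one hG.1

/-- (i) implies (ii). -/
theorem split_of_inv (hI : IsogInv K) : SplitInv K := by
  intro W T hs hW hT hc
  apply split_of_QQ W T hs hW hT hc
  exact Pool.Agent.Helper69.RY.path QQ
    (fun d δ u c hd hδ hu hc => QQ_sq hd hδ hu hc)
    (fun d δ a hd hδ ha => QQ_step hI hd hδ ha)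

end Pool.Agent.Helper58.IQ
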