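import Pool.Agent.Helper58.IQ.Curve

/-!
# The three statements
-/

namespace Pool.Agent.Helper58.IQ

variable {K : Type*} [Field K]

/-- The Galois module `T` for a stable subgroup `T` of `W(Kb)`. -/
noncomputable def lineRep (W : WeierstrassCurve K) (T : AddSubgroup (Pts W)) (hs : Stab W T) :
    GK K →* AddMonoid.End T :=
  subRep (ptsRep W) T hs

/-- The Galois module `W[3] / T` for a stable subgroup `T` of `W[3]`. -/
noncomputable def quotRep (W : WeierstrassCurve K) (T : AddSubgroup (Pts W)) (hs : Stab W T) :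
    GK K →* AddMonoid.End (tor3 W ⧸ T.addSubgroupOf (tor3 W)) :=
  quoRep (torRep W) (T.addSubgroupOf (tor3 W)) (fun g x hx => hs g x hx)

/-- Q1 for `p = 3` over `K`. -/
def IsogInv (K : Type*) [Field K] : Prop :=
  ∀ W W' : WeierstrassCurve K, W.Δ ≠ 0 → W'.Δ ≠ 0 → Isogenous W W' →
    (ConjA 3 (torRep W) ↔ ConjA 3 (torRep W'))

/-- Conjecture A for `W[3]` is equivalent to Conjecture A for `T` and `W[3]/T`, for every stable
subgroup `T` of order 3 of `W[3]`. -/
def SplitInv (K : Type*) [Field K] : Prop :=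
  ∀ (W : WeierstrassCurve K) (T : AddSubgroup (Pts W)) (hs : Stab W T), W.Δ ≠ 0 →
    T ≤ tor3 W → Nat.card T = 3 →
    (ConjA 3 (torRep W) ↔ ConjA 3 (lineRep W T hs) ∧ ConjA 3 (quotRep W T hs))

/-- Conjecture A for `W[3]` only depends on the semisimplification of `W[3]`, if `W[3]` has a
stable subgroup `T` of order 3: it is the same for `W` and `W'` if `T` is isomorphic to `T'` or
to `W'[3]/T'`. -/
def LineInv (K : Type*) [Field K] : Prop :=
  ∀ (W W' : WeierstrassCurve K) (T : AddSubgroup (Pts W)) (T' : AddSubgroup (Pts W'))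
    (hs : Stab W T) (hs' : Stab W' T'), W.Δ ≠ 0 → W'.Δ ≠ 0 →
    T ≤ tor3 W → T' ≤ tor3 W' → Nat.card T = 3 → Nat.card T' = 3 →
    (Iso (lineRep W T hs) (lineRep W' T' hs') ∨ Iso (lineRep W T hs) (quotRep W' T' hs')) →
    (ConjA 3 (torRep W) ↔ ConjA 3 (torRep W'))

end Pool.Agent.Helper58.IQ
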